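import Pool.Agent.H86.CM.IDefs

/-!
# First order definability of the notions of `IDefs`
-/

set_option autoImplicit false
set_option linter.unusedTactic false
set_option linter.unreachableTactic false

universe v

namespace Pool.Agent.H86.CM

open BV

/-- all variables of `φ` are smaller than `bd φ` -/
def bd : Fml → ℕ
  | .mem i j => max i j + 1
  | .eq i j => max i j + 1
  | .bot => 0
  | .imp φ ψ => max (bd φ) (bd ψ)
  | .all i φ => max (i + 1) (bd φ)

theorem sat_congr {M : Type v} (E : M → M → Prop) (φ : Fml) : ∀ (w w' : ℕ → M),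
    (∀ i < bd φ, w i = w' i) → (Sat E φ w ↔ Sat E φ w') := by
  induction φ with
  | mem i j =>
    intro w w' h
    simp only [Sat]
    rw [h i (by simp [bd]), h j (by simp [bd])]
  | eq i j =>
    intro w w' h
    simp only [Sat]
    rw [h i (by simp [bd]), h j (by simp [bd])]
  | bot => intro w w' _; exact Iff.rfl
  | imp φ ψ ih ih' =>
    intro w w' h
    simp only [Sat]
    rw [ih w w' (fun i hi => h i (lt_of_lt_of_le hi (le_max_left _ _))),
      ih' w w' (fun i hi => h i (lt_of_lt_of_le hi (le_max_right _ _)))]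
  | all k φ ih =>
    intro w w' h
    simp only [Sat]
    refine forall_congr' fun x => ih _ _ fun i hi => ?_
    by_cases hk : i = k
    · subst hk
      simp
    · rw [Function.update_of_ne hk, Function.update_of_ne hk]
      exact h i (lt_of_lt_of_le hi (le_max_right _ _))

/-- a number larger than `f j` for all `j < n` -/
def fresh (f : ℕ → ℕ) (n : ℕ) : ℕ := (Finset.range n).sup f + 1

theorem lt_fresh {f : ℕ → ℕ} {n j : ℕ} (h : j < n) : f j < fresh f n :=
  Nat.lt_succ_of_le (Finset.le_sup (f := f) (Finset.mem_range.mpr h))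

/-- renaming of the free variables -/
def ren : (ℕ → ℕ) → Fml → Fml
  | f, .mem i j => .mem (f i) (f j)
  | f, .eq i j => .eq (f i) (f j)
  | _, .bot => .bot
  | f, .imp φ ψ => .imp (ren f φ) (ren f ψ)
  | f, .all i φ => .all (fresh f (bd φ)) (ren (Function.update f i (fresh f (bd φ))) φ)

theorem sat_ren {M : Type v} (E : M → M → Prop) (φ : Fml) : ∀ (f : ℕ → ℕ) (w : ℕ → M),
    (Sat E (ren f φ) w ↔ Sat E φ (fun i => w (f i))) := by
  induction φ with
  | mem i j => intro f w; exact Iff.rfl
  | eq i j => intro f w; exact Iff.rfl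
  | bot => intro f w; exact Iff.rfl
  | imp φ ψ ih ih' =>
    intro f w
    simp only [ren, Sat]
    rw [ih, ih']
  | all k φ ih =>
    intro f w
    simp only [ren, Sat]
    refine forall_congr' fun x => ?_
    rw [ih]
    refine sat_congr E φ _ _ fun i hi => ?_
    by_cases hk : i = k
    · subst hk
      simp
    · rw [Function.update_of_ne hk, Function.update_of_ne hk,
        Function.update_of_ne (ne_of_lt (lt_fresh hi))]

/-- `P` is uniformly first order definable -/
def FO (P : ∀ M : Type v, (M → M → Prop) → (ℕ → M) → Prop) : Prop :=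
  ∃ φ : Fml, ∀ (M : Type v) (E : M → M → Prop) (w : ℕ → M), Sat E φ w ↔ P M E w

variable {P Q : ∀ M : Type v, (M → M → Prop) → (ℕ → M) → Prop}

theorem fo_congr (h : FO P) (hPQ : ∀ M E w, P M E w ↔ Q M E w) : FO Q := by
  obtain ⟨φ, hφ⟩ := h
  exact ⟨φ, fun M E w => (hφ M E w).trans (hPQ M E w)⟩

theorem fo_mem (i j : ℕ) : FO.{v} fun _ E w => E (w i) (w j) := ⟨.mem i j, fun _ _ _ => Iff.rfl⟩

theorem fo_eq (i j : ℕ) : FO.{v} fun _ _ w => w i = w j := ⟨.eq i j, fun _ _ _ => Iff.rfl⟩

theorem fo_imp (hP : FO P) (hQ : FO Q) : FO fun M E w => P M E w → Q M E w := by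
  obtain ⟨φ, hφ⟩ := hP
  obtain ⟨ψ, hψ⟩ := hQ
  exact ⟨.imp φ ψ, fun M E w => imp_congr (hφ M E w) (hψ M E w)⟩

theorem fo_const (p : Prop) : FO.{v} fun _ _ _ => p := by
  by_cases h : p
  · exact ⟨.imp .bot .bot, fun _ _ _ => ⟨fun _ => h, fun _ h' => h'⟩⟩
  · exact ⟨.bot, fun _ _ _ => ⟨fun h' => absurd h' (fun h'' => h''), fun h' => h h'⟩⟩

theorem fo_not (hP : FO P) : FO fun M E w => ¬ P M E w :=
  fo_imp hP (fo_const False)

theorem fo_and (hP : FO P) (hQ : FO Q) : FO fun M E w => P M E w ∧ Q M E w := by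
  refine fo_congr (fo_not (fo_imp hP (fo_not hQ))) fun M E w => ?_
  tauto

theorem fo_or (hP : FO P) (hQ : FO Q) : FO fun M E w => P M E w ∨ Q M E w := by
  refine fo_congr (fo_imp (fo_not hP) hQ) fun M E w => ?_
  tauto

theorem fo_iff (hP : FO P) (hQ : FO Q) : FO fun M E w => P M E w ↔ Q M E w := by
  refine fo_congr (fo_and (fo_imp hP hQ) (fo_imp hQ hP)) fun M E w => ?_
  tauto

theorem fo_ren (f : ℕ → ℕ) (hP : FO P) : FO fun M E w => P M E (fun i => w (f i)) := by
  obtain ⟨φ, hφ⟩ := hP
  exact ⟨ren f φ, fun M E w => (sat_ren E φ f w).trans (hφ M E _)⟩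

/-- the renaming which makes the variable `0` the variable `K` -/
def shf (K : ℕ) : ℕ → ℕ
  | 0 => K
  | n + 1 => n

theorem fo_all {Q : ∀ M : Type v, (M → M → Prop) → (ℕ → M) → M → Prop}
    (h : FO fun M E w => Q M E (fun n => w (n + 1)) (w 0)) : FO fun M E w => ∀ x, Q M E w x := by
  obtain ⟨φ, hφ⟩ := h
  refine ⟨.all (bd φ) (ren (shf (bd φ)) φ), fun M E w => ?_⟩
  simp only [Sat]
  refine forall_congr' fun x => ?_
  rw [sat_ren]
  let w' : ℕ → M := fun n => match n with
    | 0 => x
    | n + 1 => w n
  have h1 : Sat E φ (fun i => Function.update w (bd φ) x (shf (bd φ) i)) ↔ Sat E φ w' := by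
    refine sat_congr E φ _ _ fun i hi => ?_
    cases i with
    | zero => simp [shf, w']
    | succ n =>
      change Function.update w (bd φ) x n = w n
      rw [Function.update_of_ne (by omega)]
  rw [h1, hφ M E w']

theorem fo_ex {Q : ∀ M : Type v, (M → M → Prop) → (ℕ → M) → M → Prop}
    (h : FO fun M E w => Q M E (fun n => w (n + 1)) (w 0)) : FO fun M E w => ∃ x, Q M E w x := by
  refine fo_congr (fo_not (fo_all (Q := fun M E w x => ¬ Q M E w x) (fo_not h))) fun M E w => ?_
  push Not
  exact Iff.rfl

theorem fo_emp (i : ℕ) : FO.{v} fun _ E w => IsEmp E (w i) := by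
  unfold IsEmp
  repeat' first
    | exact fo_mem _ _
    | exact fo_eq _ _
    | exact fo_const _
    | refine fo_not ?_
    | refine fo_and ?_ ?_
    | refine fo_or ?_ ?_
    | refine fo_iff ?_ ?_
    | refine fo_imp ?_ ?_
    | refine fo_all ?_
    | refine fo_ex ?_

theorem fo_suc (i j : ℕ) : FO.{v} fun _ E w => IsSuc E (w i) (w j) := by
  unfold IsSuc
  repeat' first
    | exact fo_mem _ _
    | exact fo_eq _ _
    | exact fo_const _
    | exact fo_emp _
    | refine fo_not ?_
    | refine fo_and ?_ ?_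
    | refine fo_or ?_ ?_
    | refine fo_iff ?_ ?_
    | refine fo_imp ?_ ?_
    | refine fo_all ?_
    | refine fo_ex ?_

theorem fo_pair (i j k : ℕ) : FO.{v} fun _ E w => IsPair E (w i) (w j) (w k) := by
  unfold IsPair
  repeat' first
    | exact fo_mem _ _
    | exact fo_eq _ _
    | exact fo_const _
    | exact fo_emp _
    | exact fo_suc _ _
    | refine fo_not ?_
    | refine fo_and ?_ ?_
    | refine fo_or ?_ ?_
    | refine fo_iff ?_ ?_
    | refine fo_imp ?_ ?_
    | refine fo_all ?_
    | refine fo_ex ?_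

theorem fo_opair (i j k : ℕ) : FO.{v} fun _ E w => IsOPair E (w i) (w j) (w k) := by
  unfold IsOPair
  repeat' first
    | exact fo_mem _ _
    | exact fo_eq _ _
    | exact fo_const _
    | exact fo_emp _
    | exact fo_suc _ _
    | exact fo_pair _ _ _
    | refine fo_not ?_
    | refine fo_and ?_ ?_
    | refine fo_or ?_ ?_
    | refine fo_iff ?_ ?_
    | refine fo_imp ?_ ?_
    | refine fo_all ?_
    | refine fo_ex ?_

theorem fo_app (i j k : ℕ) : FO.{v} fun _ E w => App E (w i) (w j) (w k) := by
  unfold App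
  repeat' first
    | exact fo_mem _ _
    | exact fo_eq _ _
    | exact fo_const _
    | exact fo_emp _
    | exact fo_suc _ _
    | exact fo_pair _ _ _
    | exact fo_opair _ _ _
    | refine fo_not ?_
    | refine fo_and ?_ ?_
    | refine fo_or ?_ ?_
    | refine fo_iff ?_ ?_
    | refine fo_imp ?_ ?_
    | refine fo_all ?_
    | refine fo_ex ?_

theorem fo_nat (i : ℕ) : FO.{v} fun _ E w => IsNat E (w i) := by
  unfold IsNat
  repeat' first
    | exact fo_mem _ _
    | exact fo_eq _ _
    | exact fo_const _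
    | exact fo_emp _
    | exact fo_suc _ _
    | exact fo_pair _ _ _
    | exact fo_opair _ _ _
    | exact fo_app _ _ _
    | refine fo_not ?_
    | refine fo_and ?_ ?_
    | refine fo_or ?_ ?_
    | refine fo_iff ?_ ?_
    | refine fo_imp ?_ ?_
    | refine fo_all ?_
    | refine fo_ex ?_

theorem fo_num (t : ℕ) : ∀ i : ℕ, FO.{v} fun _ E w => IsNum E t (w i) := by
  induction t with
  | zero => exact fun i => fo_emp i
  | succ t ih =>
    intro i
    unfold IsNum
    exact fo_ex (fo_and (ih 0) (fo_suc 0 (i + 1)))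

theorem fo_code (t : ℕ) (i j : ℕ) : FO.{v} fun _ E w => IsCode E t (w i) (w j) := by
  unfold IsCode
  repeat' first
    | exact fo_mem _ _
    | exact fo_eq _ _
    | exact fo_const _
    | exact fo_emp _
    | exact fo_suc _ _
    | exact fo_pair _ _ _
    | exact fo_opair _ _ _
    | exact fo_app _ _ _
    | exact fo_nat _
    | exact fo_num _ _
    | refine fo_not ?_
    | refine fo_and ?_ ?_
    | refine fo_or ?_ ?_
    | refine fo_iff ?_ ?_
    | refine fo_imp ?_ ?_
    | refine fo_all ?_
    | refine fo_ex ?_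

theorem fo_var (i j : ℕ) : FO.{v} fun _ E w => IsVar E (w i) (w j) := by
  unfold IsVar
  repeat' first
    | exact fo_mem _ _
    | exact fo_eq _ _
    | exact fo_const _
    | exact fo_emp _
    | exact fo_suc _ _
    | exact fo_pair _ _ _
    | exact fo_opair _ _ _
    | exact fo_app _ _ _
    | exact fo_nat _
    | exact fo_num _ _
    | exact fo_code _ _ _
    | refine fo_not ?_
    | refine fo_and ?_ ?_
    | refine fo_or ?_ ?_
    | refine fo_iff ?_ ?_
    | refine fo_imp ?_ ?_
    | refine fo_all ?_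
    | refine fo_ex ?_

theorem fo_step (b : Bool) (i j : ℕ) : FO.{v} fun _ E w => Step E b (w i) (w j) := by
  unfold Step IsFn
  repeat' first
    | exact fo_mem _ _
    | exact fo_eq _ _
    | exact fo_const _
    | exact fo_emp _
    | exact fo_suc _ _
    | exact fo_pair _ _ _
    | exact fo_opair _ _ _
    | exact fo_app _ _ _
    | exact fo_nat _
    | exact fo_num _ _
    | exact fo_code _ _ _
    | exact fo_var _ _
    | refine fo_not ?_
    | refine fo_and ?_ ?_
    | refine fo_or ?_ ?_
    | refine fo_iff ?_ ?_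
    | refine fo_imp ?_ ?_
    | refine fo_all ?_
    | refine fo_ex ?_

theorem fo_fm (b : Bool) (i : ℕ) : FO.{v} fun _ E w => IsFm E b (w i) := by
  unfold IsFm
  repeat' first
    | exact fo_mem _ _
    | exact fo_eq _ _
    | exact fo_const _
    | exact fo_emp _
    | exact fo_suc _ _
    | exact fo_pair _ _ _
    | exact fo_opair _ _ _
    | exact fo_app _ _ _
    | exact fo_nat _
    | exact fo_num _ _
    | exact fo_code _ _ _
    | exact fo_var _ _
    | exact fo_step _ _ _
    | refine fo_not ?_
    | refine fo_and ?_ ?_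
    | refine fo_or ?_ ?_
    | refine fo_iff ?_ ?_
    | refine fo_imp ?_ ?_
    | refine fo_all ?_
    | refine fo_ex ?_

theorem fo_asg (i j : ℕ) : FO.{v} fun _ E w => IsAsg E (w i) (w j) := by
  unfold IsAsg IsFn
  repeat' first
    | exact fo_mem _ _
    | exact fo_eq _ _
    | exact fo_const _
    | exact fo_emp _
    | exact fo_suc _ _
    | exact fo_pair _ _ _
    | exact fo_opair _ _ _
    | exact fo_app _ _ _
    | exact fo_nat _
    | exact fo_num _ _
    | exact fo_code _ _ _
    | exact fo_var _ _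
    | exact fo_step _ _ _
    | exact fo_fm _ _
    | refine fo_not ?_
    | refine fo_and ?_ ?_
    | refine fo_or ?_ ?_
    | refine fo_iff ?_ ?_
    | refine fo_imp ?_ ?_
    | refine fo_all ?_
    | refine fo_ex ?_

theorem fo_upd (i j k l : ℕ) : FO.{v} fun _ E w => IsUpd E (w i) (w j) (w k) (w l) := by
  unfold IsUpd
  repeat' first
    | exact fo_mem _ _
    | exact fo_eq _ _
    | exact fo_const _
    | exact fo_emp _
    | exact fo_suc _ _
    | exact fo_pair _ _ _
    | exact fo_opair _ _ _
    | exact fo_app _ _ _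
    | exact fo_nat _
    | exact fo_num _ _
    | exact fo_code _ _ _
    | exact fo_var _ _
    | exact fo_step _ _ _
    | exact fo_fm _ _
    | exact fo_asg _ _
    | refine fo_not ?_
    | refine fo_and ?_ ?_
    | refine fo_or ?_ ?_
    | refine fo_iff ?_ ?_
    | refine fo_imp ?_ ?_
    | refine fo_all ?_
    | refine fo_ex ?_

theorem fo_sat (b : Bool) (i j k l m : ℕ) : FO.{v} fun _ E w => IsSat E b (w i) (w j) (w k) (w l) (w m) := by
  unfold IsSat InjOn
  repeat' first
    | exact fo_mem _ _
    | exact fo_eq _ _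
    | exact fo_const _
    | exact fo_emp _
    | exact fo_suc _ _
    | exact fo_pair _ _ _
    | exact fo_opair _ _ _
    | exact fo_app _ _ _
    | exact fo_nat _
    | exact fo_num _ _
    | exact fo_code _ _ _
    | exact fo_var _ _
    | exact fo_step _ _ _
    | exact fo_fm _ _
    | exact fo_asg _ _
    | exact fo_upd _ _ _ _
    | refine fo_not ?_
    | refine fo_and ?_ ?_
    | refine fo_or ?_ ?_
    | refine fo_iff ?_ ?_
    | refine fo_imp ?_ ?_
    | refine fo_all ?_
    | refine fo_ex ?_

theorem fo_red (b : Bool) (i j k l : ℕ) : FO.{v} fun _ E w => IsRed E b (w i) (w j) (w k) (w l) := by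
  unfold IsRed
  repeat' first
    | exact fo_mem _ _
    | exact fo_eq _ _
    | exact fo_const _
    | exact fo_emp _
    | exact fo_suc _ _
    | exact fo_pair _ _ _
    | exact fo_opair _ _ _
    | exact fo_app _ _ _
    | exact fo_nat _
    | exact fo_num _ _
    | exact fo_code _ _ _
    | exact fo_var _ _
    | exact fo_step _ _ _
    | exact fo_fm _ _
    | exact fo_asg _ _
    | exact fo_upd _ _ _ _
    | exact fo_sat _ _ _ _ _ _
    | refine fo_not ?_
    | refine fo_and ?_ ?_
    | refine fo_or ?_ ?_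
    | refine fo_iff ?_ ?_
    | refine fo_imp ?_ ?_
    | refine fo_all ?_
    | refine fo_ex ?_

theorem fo_delta (b : Bool) (i j k : ℕ) : FO.{v} fun _ E w => IsDelta E b (w i) (w j) (w k) := by
  unfold IsDelta IsFn
  repeat' first
    | exact fo_mem _ _
    | exact fo_eq _ _
    | exact fo_const _
    | exact fo_emp _
    | exact fo_suc _ _
    | exact fo_pair _ _ _
    | exact fo_opair _ _ _
    | exact fo_app _ _ _
    | exact fo_nat _
    | exact fo_num _ _
    | exact fo_code _ _ _
    | exact fo_var _ _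
    | exact fo_step _ _ _
    | exact fo_fm _ _
    | exact fo_asg _ _
    | exact fo_upd _ _ _ _
    | exact fo_sat _ _ _ _ _ _
    | exact fo_red _ _ _ _ _
    | refine fo_not ?_
    | refine fo_and ?_ ?_
    | refine fo_or ?_ ?_
    | refine fo_iff ?_ ?_
    | refine fo_imp ?_ ?_
    | refine fo_all ?_
    | refine fo_ex ?_

theorem fo_defin (b : Bool) (i j : ℕ) : FO.{v} fun _ E w => IsDefin E b (w i) (w j) := by
  unfold IsDefin IsFn
  repeat' first
    | exact fo_mem _ _
    | exact fo_eq _ _
    | exact fo_const _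
    | exact fo_emp _
    | exact fo_suc _ _
    | exact fo_pair _ _ _
    | exact fo_opair _ _ _
    | exact fo_app _ _ _
    | exact fo_nat _
    | exact fo_num _ _
    | exact fo_code _ _ _
    | exact fo_var _ _
    | exact fo_step _ _ _
    | exact fo_fm _ _
    | exact fo_asg _ _
    | exact fo_upd _ _ _ _
    | exact fo_sat _ _ _ _ _ _
    | exact fo_red _ _ _ _ _
    | exact fo_delta _ _ _ _
    | refine fo_not ?_
    | refine fo_and ?_ ?_
    | refine fo_or ?_ ?_
    | refine fo_iff ?_ ?_
    | refine fo_imp ?_ ?_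
    | refine fo_all ?_
    | refine fo_ex ?_

theorem fo_lev (b : Bool) (i j : ℕ) : FO.{v} fun _ E w => IsLev E b (w i) (w j) := by
  unfold IsLev
  repeat' first
    | exact fo_mem _ _
    | exact fo_eq _ _
    | exact fo_const _
    | exact fo_emp _
    | exact fo_suc _ _
    | exact fo_pair _ _ _
    | exact fo_opair _ _ _
    | exact fo_app _ _ _
    | exact fo_nat _
    | exact fo_num _ _
    | exact fo_code _ _ _
    | exact fo_var _ _
    | exact fo_step _ _ _
    | exact fo_fm _ _
    | exact fo_asg _ _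
    | exact fo_upd _ _ _ _
    | exact fo_sat _ _ _ _ _ _
    | exact fo_red _ _ _ _ _
    | exact fo_delta _ _ _ _
    | exact fo_defin _ _ _
    | refine fo_not ?_
    | refine fo_and ?_ ?_
    | refine fo_or ?_ ?_
    | refine fo_iff ?_ ?_
    | refine fo_imp ?_ ?_
    | refine fo_all ?_
    | refine fo_ex ?_

theorem fo_ord (i : ℕ) : FO.{v} fun _ E w => IsOrd E (w i) := by
  unfold IsOrd BV.IsTrans
  repeat' first
    | exact fo_mem _ _
    | exact fo_eq _ _
    | exact fo_const _
    | exact fo_emp _
    | exact fo_suc _ _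
    | exact fo_pair _ _ _
    | exact fo_opair _ _ _
    | exact fo_app _ _ _
    | exact fo_nat _
    | exact fo_num _ _
    | exact fo_code _ _ _
    | exact fo_var _ _
    | exact fo_step _ _ _
    | exact fo_fm _ _
    | exact fo_asg _ _
    | exact fo_upd _ _ _ _
    | exact fo_sat _ _ _ _ _ _
    | exact fo_red _ _ _ _ _
    | exact fo_delta _ _ _ _
    | exact fo_defin _ _ _
    | exact fo_lev _ _ _
    | refine fo_not ?_
    | refine fo_and ?_ ?_
    | refine fo_or ?_ ?_
    | refine fo_iff ?_ ?_
    | refine fo_imp ?_ ?_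
    | refine fo_all ?_
    | refine fo_ex ?_

theorem fo_inC (b : Bool) (i : ℕ) : FO.{v} fun _ E w => InC E b (w i) := by
  unfold InC
  repeat' first
    | exact fo_mem _ _
    | exact fo_eq _ _
    | exact fo_const _
    | exact fo_emp _
    | exact fo_suc _ _
    | exact fo_pair _ _ _
    | exact fo_opair _ _ _
    | exact fo_app _ _ _
    | exact fo_nat _
    | exact fo_num _ _
    | exact fo_code _ _ _
    | exact fo_var _ _
    | exact fo_step _ _ _
    | exact fo_fm _ _
    | exact fo_asg _ _
    | exact fo_upd _ _ _ _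
    | exact fo_sat _ _ _ _ _ _
    | exact fo_red _ _ _ _ _
    | exact fo_delta _ _ _ _
    | exact fo_defin _ _ _
    | exact fo_lev _ _ _
    | exact fo_ord _
    | refine fo_not ?_
    | refine fo_and ?_ ?_
    | refine fo_or ?_ ?_
    | refine fo_iff ?_ ?_
    | refine fo_imp ?_ ?_
    | refine fo_all ?_
    | refine fo_ex ?_

theorem fo_real (i : ℕ) : FO.{v} fun _ E w => IsReal E (w i) := by
  unfold IsReal
  repeat' first
    | exact fo_mem _ _
    | exact fo_eq _ _
    | exact fo_const _
    | exact fo_emp _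
    | exact fo_suc _ _
    | exact fo_pair _ _ _
    | exact fo_opair _ _ _
    | exact fo_app _ _ _
    | exact fo_nat _
    | exact fo_num _ _
    | exact fo_code _ _ _
    | exact fo_var _ _
    | exact fo_step _ _ _
    | exact fo_fm _ _
    | exact fo_asg _ _
    | exact fo_upd _ _ _ _
    | exact fo_sat _ _ _ _ _ _
    | exact fo_red _ _ _ _ _
    | exact fo_delta _ _ _ _
    | exact fo_defin _ _ _
    | exact fo_lev _ _ _
    | exact fo_ord _
    | refine fo_not ?_
    | refine fo_and ?_ ?_
    | refine fo_or ?_ ?_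
    | refine fo_iff ?_ ?_
    | refine fo_imp ?_ ?_
    | refine fo_all ?_
    | refine fo_ex ?_

end Pool.Agent.H86.CM
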