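import Pool.Agent.H26.BV.Quo
import Pool.Agent.H26.BV.Chk

/-!
# The action of the automorphisms of a complete Boolean algebra on names
-/

set_option autoImplicit false

universe u

namespace Pool.Agent.H86.CM

open BV

variable {B : Type u} [CompleteBooleanAlgebra B] (π : B ≃o B)

/-- the action of an automorphism on names -/
def nmap : BSet B → BSet B
  | BSet.mk ι A a => BSet.mk ι (fun i => nmap (A i)) (fun i => π (a i))

theorem nmap_symm (x : BSet B) : nmap π (nmap π.symm x) = x := by
  induction x with
  | mk ι A a ih =>
    simp only [nmap]
    congr 1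
    · funext i
      exact ih i
    · funext i
      exact π.apply_symm_apply _

theorem map_himp' (a b : B) : π (a ⇨ b) = π a ⇨ π b := by
  rw [himp_eq, himp_eq, map_sup, map_compl]

theorem beq_nmap (x : BSet B) : ∀ y, beq (nmap π x) (nmap π y) = π (beq x y) := by
  induction x with
  | mk ι A a ih =>
    intro y
    cases y with
    | mk ι' A' a' =>
      simp only [nmap, beq_mk, map_inf, OrderIso.map_iInf, OrderIso.map_iSup, map_himp', ih]

theorem bmem_nmap (x y : BSet B) : bmem (nmap π x) (nmap π y) = π (bmem x y) := by
  cases y with
  | mk ι A a => simp only [nmap, bmem_mk, map_inf, OrderIso.map_iSup, beq_nmap]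

theorem nmap_surj : Function.Surjective (nmap π) := fun x => ⟨nmap π.symm x, nmap_symm π x⟩

theorem val_nmap (φ : Fml) : ∀ w : ℕ → BSet B, val φ (fun i => nmap π (w i)) = π (val φ w) := by
  induction φ with
  | mem i j => intro w; exact bmem_nmap π _ _
  | eq i j => intro w; exact beq_nmap π _ _
  | bot => intro w; exact (map_bot π).symm
  | imp φ ψ ih ih' =>
    intro w
    simp only [val, ih, ih', map_himp']
  | all i φ ih =>
    intro w
    simp only [val, OrderIso.map_iInf]
    rw [← (nmap_surj π).iInf_comp]
    refine iInf_congr fun x => ?_
    rw [← ih]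
    congr 1
    funext j
    by_cases h : j = i
    · subst h
      simp
    · simp [Function.update_of_ne h]

theorem nmap_chk (α : Ordinal.{u}) : nmap π (chk B α) = chk B α := by
  induction α using WellFoundedLT.induction with
  | ind α ih =>
    rw [chk]
    simp only [nmap, map_top]
    congr 1
    funext i
    exact ih _ i.toOrd.2

end Pool.Agent.H86.CM
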