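import Pool.Agent.H86.CM.FO
import Pool.Agent.H86.CM.Act
import Pool.Agent.H26.BV.Zfc
import Pool.Agent.H26.BV.Ord

/-!
# Forcing with definable notions
-/

set_option autoImplicit false

namespace Pool.Agent.H86.CM

open BV

/-- `x, w 0, w 1, ...` -/
def cns {X : Type*} (x : X) (w : ℕ → X) : ℕ → X
  | 0 => x
  | n + 1 => w n

variable {B : Type} [CompleteBooleanAlgebra B]

/-- the classes of a sequence of names -/
def mks (U : UF B) (w : ℕ → BSet B) : ℕ → MU U := fun i => MU.mk U (w i)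

theorem mks_cns (U : UF B) (x : BSet B) (w : ℕ → BSet B) :
    mks U (cns x w) = cns (MU.mk U x) (mks U w) := by
  funext i
  cases i <;> rfl

variable {P : ∀ M : Type 1, (M → M → Prop) → (ℕ → M) → Prop}

theorem fo_lift (hP : FO P) : ∃ f : (ℕ → BSet B) → B,
    (∀ (U : UF B) (w : ℕ → BSet B), f w ∈ U ↔ P (MU U) (MU.E U) (mks U w)) ∧
    ∀ (π : B ≃o B) (w : ℕ → BSet B), f (fun i => nmap π (w i)) = π (f w) := by
  obtain ⟨φ, hφ⟩ := hP
  exact ⟨val φ, fun U w => (los_fml φ U w).trans (hφ _ _ _), fun π w => val_nmap π φ w⟩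

/-- the lift with one distinguished variable -/
theorem fo_lift_one (hP : FO P) (w : ℕ → BSet B) : ∃ g : BSet B → B, Ext g ∧
    ∀ (U : UF B) (x : BSet B), g x ∈ U ↔ P (MU U) (MU.E U) (cns (MU.mk U x) (mks U w)) := by
  obtain ⟨f, hf, -⟩ := fo_lift (B := B) hP
  have h : ∀ (U : UF B) (x : BSet B), f (cns x w) ∈ U ↔
      P (MU U) (MU.E U) (cns (MU.mk U x) (mks U w)) := by
    intro U x
    rw [hf, mks_cns]
  exact ⟨fun x => f (cns x w), ext_of_los
    (P := fun U m => P (MU U) (MU.E U) (cns m (mks U w))) h, h⟩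

/-- maximum principle -/
theorem frc_ex (hP : FO P) (w : ℕ → BSet B) (b : B)
    (h : ∀ U : UF B, b ∈ U → ∃ m, P (MU U) (MU.E U) (cns m (mks U w))) :
    ∃ x : BSet B, ∀ U : UF B, b ∈ U → P (MU U) (MU.E U) (cns (MU.mk U x) (mks U w)) := by
  obtain ⟨g, hg, hg'⟩ := fo_lift_one hP w
  obtain ⟨x, hx⟩ := exists_max hg
  refine ⟨x, fun U hU => ?_⟩
  obtain ⟨m, hm⟩ := h U hU
  obtain ⟨y, rfl⟩ := MU.mk_surj U m
  rw [← hg', hx]
  exact U.mem_of_le ((hg' U y).mpr hm) (le_iSup g y)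

theorem exists_inf_ne_bot {ι : Sort*} {b : B} (hb : b ≠ ⊥) {f : ι → B} (h : b ≤ ⨆ i, f i) :
    ∃ i, b ⊓ f i ≠ ⊥ := by
  by_contra hc
  push Not at hc
  apply hb
  rw [← inf_eq_left.mpr h, inf_iSup_eq]
  simp [hc]

/-- to force a disjunction -/
theorem frc_or {b : B} (hb : b ≠ ⊥) {c d : B} (h : b ≤ c ⊔ d) : b ⊓ c ≠ ⊥ ∨ b ⊓ d ≠ ⊥ := by
  by_contra hc
  push Not at hc
  apply hb
  rw [← inf_eq_left.mpr h, inf_sup_left, hc.1, hc.2, bot_sup_eq]

theorem frc_chk {b : B} (hb : b ≠ ⊥) {x : BSet B} {α : Ordinal.{0}}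
    (h : ∀ U : UF B, b ∈ U → MU.E U (MU.mk U x) (ck U α)) :
    ∃ β < α, ∃ b' ≤ b, b' ≠ ⊥ ∧ ∀ U : UF B, b' ∈ U → MU.mk U x = ck U β := by
  have h1 : b ≤ ⨆ β : Set.Iio α, beq x (chk B β) := by
    rw [← bmem_chk]
    exact UF.le_of_forall fun U hU => h U hU
  obtain ⟨β, hβ⟩ := exists_inf_ne_bot hb h1
  refine ⟨β.1, β.2, b ⊓ beq x (chk B β), inf_le_left, hβ, fun U hU => ?_⟩
  exact (MU.mk_eq_iff U _ _).mpr (U.mem_of_le hU inf_le_right)

/-- transfer for names of the form `{A i : i}` -/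
theorem ball_nm (hP : FO P) (w : ℕ → BSet B) {ι : Type} (A : ι → BSet B)
    (h : ∀ (U : UF B) (i : ι), P (MU U) (MU.E U) (cns (MU.mk U (A i)) (mks U w))) (U : UF B)
    (m : MU U) (hm : MU.E U m (MU.mk U (BSet.mk ι A fun _ => ⊤))) :
    P (MU U) (MU.E U) (cns m (mks U w)) := by
  obtain ⟨g, hg, hg'⟩ := fo_lift_one hP w
  obtain ⟨x, rfl⟩ := MU.mk_surj U m
  have h1 := ball (BSet.mk ι A fun _ => ⊤) hg
  have h2 : (⨅ i : (BSet.mk ι A fun _ => (⊤ : B)).Idx,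
      (BSet.mk ι A fun _ => (⊤ : B)).vl i ⇨ g ((BSet.mk ι A fun _ => (⊤ : B)).nm i)) = ⊤ := by
    rw [iInf_eq_top]
    intro i
    refine UF.eq_top_of_forall fun V => ?_
    rw [UF.himp_mem_iff]
    intro _
    exact (hg' V _).mpr (h V i)
  rw [← hg']
  have h3 : (⨅ y, bmem y (BSet.mk ι A fun _ => ⊤) ⇨ g y) = ⊤ := h1.trans h2
  have h4 : (bmem x (BSet.mk ι A fun _ => ⊤) ⇨ g x) ∈ U := by
    refine U.mem_of_le ?_ (iInf_le (fun y => bmem y (BSet.mk ι A fun _ => ⊤) ⇨ g y) x)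
    rw [h3]
    exact U.top_mem
  rw [UF.himp_mem_iff] at h4
  exact h4 hm

/-- transfer for check names -/
theorem ball_chk (hP : FO P) (w : ℕ → BSet B) (α : Ordinal.{0})
    (h : ∀ (U : UF B), ∀ β < α, P (MU U) (MU.E U) (cns (ck U β) (mks U w))) (U : UF B)
    (m : MU U) (hm : MU.E U m (ck U α)) : P (MU U) (MU.E U) (cns m (mks U w)) := by
  obtain ⟨g, _, hg'⟩ := fo_lift_one hP w
  exact ball_ck (P := fun U m => P (MU U) (MU.E U) (cns m (mks U w))) hg' α h U m hm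

/-! ## Invariant names -/

variable (Γ : Set (B ≃o B))

/-- the name `y` is invariant under the automorphisms in `Γ` -/
def Inv (y : BSet B) : Prop := ∀ π ∈ Γ, beq (nmap π y) y = ⊤

variable {Γ}

theorem inv_mk {y : BSet B} (hy : Inv Γ y) {π : B ≃o B} (hπ : π ∈ Γ) (U : UF B) :
    MU.mk U (nmap π y) = MU.mk U y := by
  rw [MU.mk_eq_iff, hy π hπ]
  exact U.top_mem

/-- the restriction of a name to a condition -/
def rst (y : BSet B) (u : B) : BSet B := BSet.mk y.Idx y.nm (fun i => y.vl i ⊓ u)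

theorem bmem_rst (z y : BSet B) (u : B) : bmem z (rst y u) = bmem z y ⊓ u := by
  rw [bmem_eq z (rst y u), bmem_eq z y, iSup_inf_eq]
  refine iSup_congr fun i => ?_
  change y.vl i ⊓ u ⊓ beq z (y.nm i) = _
  rw [inf_right_comm]

theorem nmap_rst (π : B ≃o B) (y : BSet B) (u : B) : nmap π (rst y u) = rst (nmap π y) (π u) := by
  cases y with
  | mk ι A a =>
    change BSet.mk ι (fun i => nmap π (A i)) (fun i => π (a i ⊓ u)) =
      BSet.mk ι (fun i => nmap π (A i)) (fun i => π (a i) ⊓ π u)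
    simp only [map_inf]

theorem rst_of_mem {U : UF B} {u : B} (hu : u ∈ U) (y : BSet B) :
    MU.mk U (rst y u) = MU.mk U y := by
  apply MU.ext_E U
  intro z
  obtain ⟨z, rfl⟩ := MU.mk_surj U z
  rw [MU.E_mk, MU.E_mk, bmem_rst, UF.inf_mem_iff]
  exact ⟨fun h => h.1, fun h => ⟨h, hu⟩⟩

theorem rst_of_notMem {U : UF B} {u : B} (hu : u ∉ U) (y : BSet B) (z : MU U) :
    ¬ MU.E U z (MU.mk U (rst y u)) := by
  obtain ⟨z, rfl⟩ := MU.mk_surj U z
  rw [MU.E_mk, bmem_rst, UF.inf_mem_iff]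
  exact fun h => hu h.2

/-- an object which is uniquely definable from invariant names has an invariant name -/
theorem def_inv (hP : FO P) (w : ℕ → BSet B) (hw : ∀ i, Inv Γ (w i))
    (huniq : ∀ (U : UF B) (m m' : MU U), P (MU U) (MU.E U) (cns m (mks U w)) →
      P (MU U) (MU.E U) (cns m' (mks U w)) → m = m') :
    ∃ y, Inv Γ y ∧ ∀ (U : UF B) (m : MU U), P (MU U) (MU.E U) (cns m (mks U w)) →
      m = MU.mk U y := by
  obtain ⟨f, hf, hfπ⟩ := fo_lift (B := B) hP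
  have h : ∀ (U : UF B) (x : BSet B), f (cns x w) ∈ U ↔
      P (MU U) (MU.E U) (cns (MU.mk U x) (mks U w)) := by
    intro U x
    rw [hf, mks_cns]
  have hg : Ext fun x => f (cns x w) := ext_of_los
    (P := fun U m => P (MU U) (MU.E U) (cns m (mks U w))) h
  obtain ⟨y, hy⟩ := exists_max hg
  have hgπ : ∀ π ∈ Γ, ∀ x, f (cns (nmap π x) w) = π (f (cns x w)) := by
    intro π hπ x
    rw [← hfπ]
    refine UF.eq_of_forall fun U => ?_
    rw [hf, hf]
    have h1 : mks U (cns (nmap π x) w) = mks U (fun i => nmap π (cns x w i)) := by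
      funext i
      cases i with
      | zero => rfl
      | succ n => exact (inv_mk (hw n) hπ U).symm
    rw [h1]
  have hu : ∀ π ∈ Γ, π (⨆ x, f (cns x w)) = ⨆ x, f (cns x w) := by
    intro π hπ
    rw [OrderIso.map_iSup]
    calc (⨆ x, π (f (cns x w))) = ⨆ x, f (cns (nmap π x) w) :=
          iSup_congr fun x => (hgπ π hπ x).symm
      _ = ⨆ x, f (cns x w) := (nmap_surj π).iSup_comp (fun x => f (cns x w))
  refine ⟨rst y (⨆ x, f (cns x w)), fun π hπ => ?_, fun U m hm => ?_⟩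
  · refine UF.eq_top_of_forall fun U => ?_
    rw [← MU.mk_eq_iff, nmap_rst, hu π hπ]
    by_cases hU : (⨆ x, f (cns x w)) ∈ U
    · rw [rst_of_mem hU, rst_of_mem hU]
      refine huniq U _ _ ?_ ?_
      · rw [← h, hgπ π hπ, hy, hu π hπ]
        exact hU
      · rw [← h, hy]
        exact hU
    · apply MU.ext_E U
      intro z
      exact ⟨fun h => absurd h (rst_of_notMem hU _ z), fun h => absurd h (rst_of_notMem hU _ z)⟩
  · obtain ⟨x, rfl⟩ := MU.mk_surj U m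
    have h1 := (h U x).mpr hm
    have h2 : (⨆ x, f (cns x w)) ∈ U := U.mem_of_le h1 (le_iSup (fun x => f (cns x w)) x)
    rw [rst_of_mem h2]
    refine huniq U _ _ hm ?_
    rw [← h, hy]
    exact h2

/-- every element of `C`-names: `x` is locally equal to a name in `C` below `b` -/
def Loc (C : Set (BSet B)) (b : B) (x : BSet B) : Prop :=
  ∀ b' ≤ b, b' ≠ ⊥ → ∃ b'' ≤ b', b'' ≠ ⊥ ∧ ∃ y ∈ C, ∀ U : UF B, b'' ∈ U → MU.mk U x = MU.mk U y

theorem loc_of_le_iSup {ι : Type*} {A : ι → BSet B} {C : Set (BSet B)} (hA : ∀ i, A i ∈ C) {b : B}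
    {x : BSet B} (h : b ≤ ⨆ i, beq x (A i)) : Loc C b x := by
  intro b' hb' hne
  obtain ⟨i, hi⟩ := exists_inf_ne_bot hne (hb'.trans h)
  exact ⟨b' ⊓ beq x (A i), inf_le_left, hi, A i, hA i, fun U hU =>
    (MU.mk_eq_iff U _ _).mpr (U.mem_of_le hU inf_le_right)⟩

end Pool.Agent.H86.CM
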