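import Pool.Agent.H26.BV.Rop

/-!
# The Cohen algebra with its bit flips
-/

set_option autoImplicit false

universe u

namespace Pool.Agent.H86.CM

open BV

theorem rop_denseEmb (P : Type u) [Preorder P] :
    @DenseEmb P _ (Heyting.Regular (LowerSet P)) (rop_cba (LowerSet P))
      (fun p => Heyting.Regular.toRegular (LowerSet.Iic p)) := by
  let := rop_cba (LowerSet P)
  refine ⟨?_, ?_, ?_, ?_⟩
  · intro p q hpq
    apply Heyting.Regular.toRegular.monotone
    exact LowerSet.Iic_le.2 hpq
  · intro p h
    have h1 : (LowerSet.Iic p) ≤ ((⊥ : Heyting.Regular (LowerSet P)) : LowerSet P) :=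
      (Heyting.Regular.gi.gc _ _).1 (le_of_eq h)
    have h2 : p ∈ ((⊥ : Heyting.Regular (LowerSet P)) : LowerSet P) := LowerSet.Iic_le.1 h1
    rw [Heyting.Regular.coe_bot] at h2
    exact LowerSet.notMem_bot h2
  · intro b hb
    have h1 : ∃ p, p ∈ (b : LowerSet P) := by
      by_contra hcon
      push Not at hcon
      apply hb
      apply Heyting.Regular.coe_injective
      rw [Heyting.Regular.coe_bot]
      ext p
      constructor
      · intro h
        exact absurd h (hcon p)
      · intro h
        exact absurd h LowerSet.notMem_bot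
    obtain ⟨p, hp⟩ := h1
    exact ⟨p, (Heyting.Regular.gi.gc _ _).2 (LowerSet.Iic_le.2 hp)⟩
  · intro p q h
    by_contra hcon
    push Not at hcon
    apply h
    apply Heyting.Regular.coe_injective
    have h1 : LowerSet.Iic p ⊓ LowerSet.Iic q = (⊥ : LowerSet P) := by
      ext r
      constructor
      · intro hr
        exact absurd hr.2 (hcon r hr.1)
      · intro hr
        exact absurd hr LowerSet.notMem_bot
    show (LowerSet.Iic p)ᶜᶜ ⊓ (LowerSet.Iic q)ᶜᶜ = ⊥
    rw [← compl_compl_inf_distrib, h1, compl_bot, compl_top]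

/-- the automorphism of the algebra of regular elements induced by an automorphism of a frame -/
def regIso {α : Type u} [Order.Frame α] (τ : α ≃o α) :
    Heyting.Regular α ≃o Heyting.Regular α where
  toFun a := ⟨τ (a : α), by
    have h : ((a : α)ᶜ)ᶜ = (a : α) := a.2
    rw [Heyting.IsRegular, ← map_compl, ← map_compl, h]⟩
  invFun a := ⟨τ.symm (a : α), by
    have h : ((a : α)ᶜ)ᶜ = (a : α) := a.2
    rw [Heyting.IsRegular, ← map_compl, ← map_compl, h]⟩
  left_inv a := Subtype.ext (τ.symm_apply_apply _)
  right_inv a := Subtype.ext (τ.apply_symm_apply _)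
  map_rel_iff' {a b} := τ.le_iff_le

theorem regIso_toRegular {α : Type u} [Order.Frame α] (τ : α ≃o α) (a : α) :
    regIso τ (Heyting.Regular.toRegular a) = Heyting.Regular.toRegular (τ a) := by
  apply Heyting.Regular.coe_injective
  change τ (aᶜᶜ) = (τ a)ᶜᶜ
  rw [map_compl, map_compl]

/-- a dense embedding into a complete Boolean algebra on which the automorphisms act -/
theorem exists_denseEmb_aut (P : Type u) [Preorder P] :
    ∃ (B : Type u) (_ : CompleteBooleanAlgebra B) (e : P → B) (π : (P ≃o P) → (B ≃o B)),
      DenseEmb P B e ∧ ∀ σ p, π σ (e p) = e (σ p) := by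
  refine ⟨Heyting.Regular (LowerSet P), rop_cba (LowerSet P),
    fun p => Heyting.Regular.toRegular (LowerSet.Iic p), fun σ => regIso (LowerSet.map σ),
    rop_denseEmb P, fun σ p => ?_⟩
  change regIso _ (Heyting.Regular.toRegular (LowerSet.Iic p)) = _
  rw [regIso_toRegular, LowerSet.map_Iic]

/-- finite partial functions from `ℕ` to `Bool` -/
def Coh : Type := {p : ℕ → Option Bool // {k | p k ≠ none}.Finite}

instance : Preorder Coh where
  le p q := ∀ k v, q.1 k = some v → p.1 k = some v
  le_refl _ _ _ h := h
  le_trans _ _ _ h1 h2 k v h := h1 k v (h2 k v h)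

/-- the flip of the bit `n` -/
def flp (n : ℕ) (p : Coh) : Coh :=
  ⟨Function.update p.1 n ((p.1 n).map not), by
    refine p.2.subset ?_
    intro k hk
    by_cases h : k = n
    · subst h
      intro h'
      apply hk
      rw [Function.update_self, h']
      rfl
    · intro h'
      apply hk
      rw [Function.update_of_ne h]
      exact h'⟩

theorem flp_flp (n : ℕ) (p : Coh) : flp n (flp n p) = p := by
  apply Subtype.ext
  funext k
  by_cases h : k = n
  · subst h
    change Function.update (Function.update p.1 k ((p.1 k).map not)) k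
      ((Function.update p.1 k ((p.1 k).map not) k).map not) k = p.1 k
    rw [Function.update_self, Function.update_self]
    cases p.1 k with
    | none => rfl
    | some v => cases v <;> rfl
  · simp [flp, Function.update_of_ne h]

theorem flp_mono (n : ℕ) {p q : Coh} (h : p ≤ q) : flp n p ≤ flp n q := by
  intro k v hk
  by_cases hkn : k = n
  · subst hkn
    simp only [flp, Function.update_self, Option.map_eq_some_iff] at hk ⊢
    obtain ⟨a, ha, hv⟩ := hk
    exact ⟨a, h _ _ ha, hv⟩
  · simp only [flp, Function.update_of_ne hkn] at hk ⊢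
    exact h _ _ hk

/-- the flip as an automorphism -/
def flpIso (n : ℕ) : Coh ≃o Coh where
  toFun := flp n
  invFun := flp n
  left_inv := flp_flp n
  right_inv := flp_flp n
  map_rel_iff' {p q} := by
    constructor
    · intro h
      have h1 := flp_mono n (p := flp n p) (q := flp n q) h
      rwa [flp_flp, flp_flp] at h1
    · exact flp_mono n

/-- the condition `p` extended by `n ↦ v` -/
def extn (p : Coh) (n : ℕ) (v : Bool) : Coh :=
  ⟨Function.update p.1 n (some v), by
    refine (p.2.insert n).subset ?_
    intro k hk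
    by_cases h : k = n
    · exact Or.inl h
    · refine Or.inr ?_
      intro h'
      apply hk
      rw [Function.update_of_ne h]
      exact h'⟩

theorem extn_le {p : Coh} {n : ℕ} (h : p.1 n = none) (v : Bool) : extn p n v ≤ p := by
  intro k u hk
  by_cases hkn : k = n
  · subst hkn
    rw [h] at hk
    exact absurd hk (by simp)
  · change Function.update p.1 n (some v) k = some u
    rw [Function.update_of_ne hkn]
    exact hk

/-- the Cohen algebra -/
theorem exists_cohen : ∃ (B : Type) (_ : CompleteBooleanAlgebra B) (a : ℕ → B)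
    (π : ℕ → (B ≃o B)), (∃ b : B, b ≠ ⊥) ∧ (∀ n, π n (a n) = (a n)ᶜ) ∧
      ∀ b : B, b ≠ ⊥ → ∃ b' ≤ b, b' ≠ ⊥ ∧ ∃ n, π n b' = b' := by
  obtain ⟨B, iB, e, π0, he, hπ0⟩ := exists_denseEmb_aut Coh
  let π : ℕ → (B ≃o B) := fun n => π0 (flpIso n)
  have hπe : ∀ n p, π n (e p) = e (flp n p) := fun n p => hπ0 (flpIso n) p
  let a : ℕ → Bool → B :=
    fun n v => ⨆ p : {p : Coh // p.1 n = some v}, e p.1
  have hflip : ∀ n v, π n (a n v) = a n (!v) := by
    intro n v
    have h1 : ∀ n v, π n (a n v) ≤ a n (!v) := by
      intro n v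
      change π n (⨆ p : {p : Coh // p.1 n = some v}, e p.1) ≤ _
      rw [OrderIso.map_iSup]
      refine iSup_le fun p => ?_
      rw [hπe]
      refine le_iSup (fun p : {p : Coh // p.1 n = some (!v)} => e p.1) ⟨flp n p.1, ?_⟩
      change Function.update p.1.1 n ((p.1.1 n).map not) n = _
      rw [Function.update_self, p.2]
      rfl
    apply le_antisymm (h1 n v)
    change (⨆ p : {p : Coh // p.1 n = some (!v)}, e p.1) ≤ _
    refine iSup_le fun p => ?_
    have h2 : e p.1 = π n (e (flp n p.1)) := by rw [hπe, flp_flp]
    rw [h2]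
    apply (π n).monotone
    refine le_iSup (fun p : {p : Coh // p.1 n = some v} => e p.1) ⟨flp n p.1, ?_⟩
    change Function.update p.1.1 n ((p.1.1 n).map not) n = _
    rw [Function.update_self, p.2]
    simp
  have hcompl : ∀ n, a n false = (a n true)ᶜ := by
    intro n
    have h1 : a n true ⊓ a n false = ⊥ := by
      change (⨆ p : {p : Coh // p.1 n = some true}, e p.1) ⊓
        (⨆ p : {p : Coh // p.1 n = some false}, e p.1) = ⊥
      rw [iSup_inf_eq, iSup_eq_bot]
      intro p
      rw [inf_iSup_eq, iSup_eq_bot]
      intro q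
      by_contra h
      obtain ⟨r, hr1, hr2⟩ := he.compat p.1 q.1 h
      have h2 := hr1 n true p.2
      have h3 := hr2 n false q.2
      rw [h2] at h3
      exact absurd h3 (by simp)
    have h2 : a n true ⊔ a n false = ⊤ := by
      have h3 : (⨆ v : Bool, a n v) = ⊤ := by
        refine he.iSup_eq_top fun p => ?_
        cases h : p.1 n with
        | none =>
          refine ⟨extn p n true, extn_le h true, true, ?_⟩
          refine le_iSup (fun p : {p : Coh // p.1 n = some true} => e p.1) ⟨extn p n true, ?_⟩
          change Function.update p.1 n (some true) n = some true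
          rw [Function.update_self]
        | some v =>
          refine ⟨p, le_rfl, v, ?_⟩
          exact le_iSup (fun p : {p : Coh // p.1 n = some v} => e p.1) ⟨p, h⟩
      rw [iSup_bool_eq] at h3
      exact h3
    exact (IsCompl.of_eq h1 h2).symm.eq_compl
  refine ⟨B, iB, fun n => a n true, π,
    ⟨e ⟨fun _ => none, by simp⟩, he.ne_bot _⟩, fun n => ?_, fun b hb => ?_⟩
  · rw [hflip]
    exact hcompl n
  · obtain ⟨p, hp⟩ := he.dense b hb
    obtain ⟨n, hn⟩ := p.2.infinite_compl.nonempty
    refine ⟨e p, hp, he.ne_bot p, n, ?_⟩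
    rw [hπe]
    have h1 : p.1 n = none := by
      by_contra h
      exact hn h
    have h2 : flp n p = p := by
      apply Subtype.ext
      funext k
      change Function.update p.1 n ((p.1 n).map not) k = p.1 k
      by_cases h : k = n
      · subst h
        rw [Function.update_self, h1]
        rfl
      · rw [Function.update_of_ne h]
    rw [h2]

end Pool.Agent.H86.CM
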