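import Pool.Agent.H86.CM.Ind
import Pool.Agent.H86.CM.Cohen

/-!
# The Cohen real is not in the inner models
-/

set_option autoImplicit false

namespace Pool.Agent.H86.CM

open BV Ordinal

variable {B : Type} [CompleteBooleanAlgebra B]

/-- the name of the generic real -/
noncomputable def gen (a : ℕ → B) : BSet B :=
  BSet.mk ℕ (fun n => chk B (n : Ordinal.{0})) a

theorem gen_real (a : ℕ → B) (U : UF B) : IsReal (MU.E U) (MU.mk U (gen a)) := by
  intro m hm
  apply isNat_of_mem_omega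
  obtain ⟨x, rfl⟩ := MU.mk_surj U m
  rw [MU.E_mk, gen, bmem_mk] at hm
  change bmem x (chk B ω) ∈ U
  refine U.mem_of_le hm (iSup_le fun n => ?_)
  rw [bmem_chk]
  exact inf_le_right.trans (le_iSup (fun β : Set.Iio (ω : Ordinal.{0}) => beq x (chk B β))
    ⟨(n : Ordinal.{0}), natCast_lt_omega0 n⟩)

theorem mem_gen (a : ℕ → B) (n : ℕ) : bmem (chk B (n : Ordinal.{0})) (gen a) = a n := by
  rw [gen, bmem_mk]
  apply le_antisymm
  · refine iSup_le fun m => ?_
    by_cases h : m = n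
    · subst h
      exact inf_le_left
    · rw [beq_chk_of_ne, inf_bot_eq]
      · exact bot_le
      · intro h'
        exact h (Nat.cast_injective h').symm
  · refine le_trans ?_ (le_iSup (fun m => a m ⊓ beq (chk B (n : Ordinal.{0}))
      (chk B (m : Ordinal.{0}))) n)
    rw [beq_refl, inf_top_eq]

theorem gen_notInC {a : ℕ → B} {π : ℕ → (B ≃o B)} (h1 : ∀ n, π n (a n) = (a n)ᶜ)
    (h2 : ∀ b : B, b ≠ ⊥ → ∃ b' ≤ b, b' ≠ ⊥ ∧ ∃ n, π n b' = b') (w : Bool) (U : UF B) :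
    ¬ InC (MU.E U) w (MU.mk U (gen a)) := by
  intro hC
  obtain ⟨g, -, hg⟩ := fo_lift_one (B := B) (P := fun _ E v => InC E w (v 0)) (fo_inC w 0)
    (fun _ => gen a)
  have hgU : g (gen a) ∈ U := (hg U _).mpr hC
  obtain ⟨b1, hb1, hne1, x, hx, hgx⟩ := inC_inv (Γ := Set.range π) w (U.ne_bot_of_mem hgU)
    (x := gen a) (fun V hV => (hg V _).mp hV)
  obtain ⟨b2, hb2, hne2, n, hn⟩ := h2 b1 hne1
  obtain ⟨V, hV⟩ := UF.exists_mem hne2
  have h3 : b2 ≤ beq (gen a) x :=
    UF.le_of_forall fun W hW => (MU.mk_eq_iff W _ _).mp (hgx W (W.mem_of_le hW hb2))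
  have h4 : b2 ≤ beq (nmap (π n) (gen a)) (nmap (π n) x) := by
    rw [beq_nmap, ← hn]
    exact (π n).monotone h3
  have h5 : MU.mk V (nmap (π n) (gen a)) = MU.mk V (gen a) := by
    rw [(MU.mk_eq_iff V _ _).mpr (V.mem_of_le hV h4), inv_mk hx ⟨n, rfl⟩ V]
    exact ((MU.mk_eq_iff V _ _).mpr (V.mem_of_le hV h3)).symm
  have h6 : MU.E V (ck V (n : Ordinal.{0})) (MU.mk V (gen a)) ↔ a n ∈ V := by
    unfold ck
    rw [MU.E_mk, mem_gen]
  have h7 : MU.E V (ck V (n : Ordinal.{0})) (MU.mk V (nmap (π n) (gen a))) ↔ a n ∉ V := by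
    unfold ck
    rw [MU.E_mk, ← nmap_chk (π n), bmem_nmap, mem_gen, h1, UF.compl_mem_iff]
  rw [h5, h6] at h7
  exact (iff_not_self h7)

/-- there is a model of ZFC with a real outside both inner models -/
theorem exists_model : ∃ (M : Type 1) (E : M → M → Prop), IsZFC E ∧
    ∃ x, IsReal E x ∧ ¬ InC E false x ∧ ¬ InC E true x := by
  obtain ⟨B, _, a, π, ⟨b, hb⟩, h1, h2⟩ := exists_cohen
  obtain ⟨U, _⟩ := UF.exists_mem hb
  exact ⟨MU U, MU.E U, isZFC U, MU.mk U (gen a), gen_real a U, gen_notInC h1 h2 false U,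
    gen_notInC h1 h2 true U⟩

/-- the statement that all reals belong to the inner model is expressed by a sentence -/
theorem exists_sentence (w : Bool) : ∃ σ : Fml, ∀ (M : Type 1) (E : M → M → Prop) (v : ℕ → M),
    Sat E σ v ↔ ∀ x, IsReal E x → InC E w x :=
  fo_all (Q := fun _ E _ x => IsReal E x → InC E w x) (fo_imp (fo_real 0) (fo_inC w 0))

end Pool.Agent.H86.CM
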