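import Pool.Agent.H26.BV.Defs

/-!
# The inner models `C(Δ(L(Q₁)))` and `C(Δ(L(Q₁, W)))` inside a structure `(M, E)`

All notions are first order notions of the structure `(M, E)`, which will be a model of ZFC.
The flag `w` is `false` for `L(Q₁)` and `true` for `L(Q₁, W)`.
-/

set_option autoImplicit false

universe v

namespace Pool.Agent.H86.CM

open BV

variable {M : Type v} (E : M → M → Prop)

/-- `x` is empty -/
def IsEmp (x : M) : Prop := ∀ z, ¬ E z x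

/-- `y = x ∪ {x}` -/
def IsSuc (x y : M) : Prop := ∀ z, E z y ↔ E z x ∨ z = x

/-- `n` is a natural number: it belongs to every inductive set -/
def IsNat (n : M) : Prop :=
  ∀ W, (∀ z, IsEmp E z → E z W) → (∀ x y, E x W → IsSuc E x y → E y W) → E n W

/-- `n` is the number `k` -/
def IsNum : ℕ → M → Prop
  | 0, n => IsEmp E n
  | k + 1, n => ∃ m, IsNum k m ∧ IsSuc E m n

/-- `p = ⟨k, x⟩` for the number `k` -/
def IsCode (k : ℕ) (p x : M) : Prop := ∃ t, IsNum E k t ∧ IsOPair E p t x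

/-- `x = ⟨s, i⟩` for a natural number `i`: if `s` is a natural number, then `x` is the `i`-th
variable of sort `s` -/
def IsVar (s x : M) : Prop := ∃ i, IsNat E i ∧ IsOPair E x s i

/-- `f` is a function with domain `X`, and `P x y` holds whenever `f(x) = y` -/
def IsFn (f : M) (X : M → Prop) (P : M → M → Prop) : Prop :=
  (∀ p, E p f → ∃ x y, X x ∧ P x y ∧ IsOPair E p x y) ∧
  ∀ x, X x → ∃ y, App E f x y ∧ ∀ y', App E f x y' → y' = y

/-- `p` is an atomic formula, or `p` is obtained by one formation rule from formulas in `X`.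
Codes: `x = y` (variables of the same sort), `x ∈ y` (sort `0`), `x = c_k` (sort `0`), `R_r(t)` for a
finite sequence `t` of variables, negation, conjunction, `∃ x`, `Q₁ x`, and `W x y` (`x`, `y` of the
same sort). -/
def Step (w : Bool) (X p : M) : Prop :=
  (∃ s x y q, IsNat E s ∧ IsVar E s x ∧ IsVar E s y ∧ IsOPair E q x y ∧ IsCode E 0 p q) ∨
  (∃ s x y q, IsEmp E s ∧ IsVar E s x ∧ IsVar E s y ∧ IsOPair E q x y ∧ IsCode E 1 p q) ∨
  (∃ s x k q, IsEmp E s ∧ IsVar E s x ∧ IsNat E k ∧ IsOPair E q x k ∧ IsCode E 2 p q) ∨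
  (∃ r n t q, IsNat E r ∧ IsNat E n ∧
    IsFn E t (fun i => E i n) (fun _ x => ∃ s, IsNat E s ∧ IsVar E s x) ∧
    IsOPair E q r t ∧ IsCode E 3 p q) ∨
  (∃ φ, E φ X ∧ IsCode E 4 p φ) ∨
  (∃ φ ψ q, E φ X ∧ E ψ X ∧ IsOPair E q φ ψ ∧ IsCode E 5 p q) ∨
  (∃ s x φ q, IsNat E s ∧ IsVar E s x ∧ E φ X ∧ IsOPair E q x φ ∧
    (IsCode E 6 p q ∨ IsCode E 7 p q)) ∨
  (w = true ∧ ∃ s x y z φ q, IsNat E s ∧ IsVar E s x ∧ IsVar E s y ∧ IsOPair E z x y ∧
    E φ X ∧ IsOPair E q z φ ∧ IsCode E 8 p q)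

/-- `φ` is (the code of) a formula -/
def IsFm (w : Bool) (φ : M) : Prop := ∀ X, (∀ p, Step E w X p → E p X) → E φ X

/-- `v` is an assignment: a function on all variables such that the value at `⟨s, i⟩` is an element
of the sort `{a : ⟨s, a⟩ ∈ D}` -/
def IsAsg (D v : M) : Prop :=
  IsFn E v (fun x => ∃ s, IsNat E s ∧ IsVar E s x)
    (fun x a => ∃ s i, IsOPair E x s i ∧ App E D s a)

/-- `v'(x) = a`, and `v'` agrees with `v` at all other variables -/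
def IsUpd (v x a v' : M) : Prop := App E v' x a ∧ ∀ y b, y ≠ x → (App E v' y b ↔ App E v y b)

/-- `T` is the satisfaction relation of the many-sorted structure `(D, R, e, s)`: the sorts are
`{a : ⟨k, a⟩ ∈ D}`, the relations `{u : ⟨r, u⟩ ∈ R}`, the membership symbol is interpreted by `e` and
the constant `c_k` by `s(k)` -/
def IsSat (w : Bool) (D R e s T : M) : Prop :=
  ∀ φ v, IsFm E w φ → IsAsg E D v →
    (∀ x y q, IsOPair E q x y → IsCode E 0 φ q →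
      (App E T φ v ↔ ∃ a, App E v x a ∧ App E v y a)) ∧
    (∀ x y q, IsOPair E q x y → IsCode E 1 φ q →
      (App E T φ v ↔ ∃ a b, App E v x a ∧ App E v y b ∧ App E e a b)) ∧
    (∀ x k q, IsOPair E q x k → IsCode E 2 φ q →
      (App E T φ v ↔ ∃ a, App E v x a ∧ App E s k a)) ∧
    (∀ r t q, IsOPair E q r t → IsCode E 3 φ q →
      (App E T φ v ↔ ∃ u, App E R r u ∧
        ∀ p, E p u ↔ ∃ i x a, App E t i x ∧ App E v x a ∧ IsOPair E p i a)) ∧
    (∀ ψ, IsCode E 4 φ ψ → (App E T φ v ↔ ¬ App E T ψ v)) ∧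
    (∀ ψ χ q, IsOPair E q ψ χ → IsCode E 5 φ q →
      (App E T φ v ↔ App E T ψ v ∧ App E T χ v)) ∧
    (∀ x ψ q, IsOPair E q x ψ → IsCode E 6 φ q →
      (App E T φ v ↔ ∃ a v', IsAsg E D v' ∧ IsUpd E v x a v' ∧ App E T ψ v')) ∧
    (∀ x ψ q, IsOPair E q x ψ → IsCode E 7 φ q →
      (App E T φ v ↔ ¬ ∃ g, InjOn E g
        (fun a => ∃ v', IsAsg E D v' ∧ IsUpd E v x a v' ∧ App E T ψ v') (fun n => IsNat E n))) ∧
    (∀ x y z ψ q, IsOPair E z x y → IsOPair E q z ψ → IsCode E 8 φ q →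
      (App E T φ v ↔ ∀ Z, (∃ b, E b Z) → ∃ b, E b Z ∧ ∀ a, E a Z →
        ¬ ∃ v' v'', IsAsg E D v' ∧ IsUpd E v x a v' ∧ IsAsg E D v'' ∧ IsUpd E v' y b v'' ∧
          App E T ψ v''))

/-- the structure `(A, e, s)` is the reduct to sort `0` of a many-sorted model of (the universal
closure of) `φ` -/
def IsRed (w : Bool) (A e s φ : M) : Prop :=
  ∃ D R T, (∀ n, IsNat E n → ∃ a, App E D n a) ∧
    (∀ z, IsEmp E z → ∀ a, App E D z a ↔ E a A) ∧
    IsSat E w D R e s T ∧ ∀ v, IsAsg E D v → App E T φ v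

/-- `(φ, ψ)` is a sentence of `Δ(L(Q₁))` or `Δ(L(Q₁, W))` for the vocabulary with a binary relation
symbol and the constants `c_k`, `k < n` -/
def IsDelta (w : Bool) (n φ ψ : M) : Prop :=
  IsFm E w φ ∧ IsFm E w ψ ∧ ∀ A e s, IsFn E s (fun k => E k n) (fun _ a => E a A) →
    (IsRed E w A e s φ ↔ ¬ IsRed E w A e s ψ)

/-- `X` is the subset of `A` defined over `(A, ∈)` by a sentence `(φ, ψ)` of `Δ(L(Q₁))` or
`Δ(L(Q₁, W))`, where `c_0` is the element and `c_{k+1} = b_k` are the parameters -/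
def IsDefin (w : Bool) (A X : M) : Prop :=
  ∃ m n φ ψ b e, IsNat E m ∧ IsSuc E m n ∧ IsDelta E w n φ ψ ∧
    IsFn E b (fun k => E k m) (fun _ a => E a A) ∧
    (∀ p, E p e ↔ ∃ x y, E x A ∧ E y A ∧ E x y ∧ IsOPair E p x y) ∧
    ∀ a, E a X ↔ E a A ∧ ∃ s, IsFn E s (fun k => E k n) (fun _ a => E a A) ∧
      (∀ z, IsEmp E z → App E s z a) ∧
      (∀ k k' c, IsSuc E k k' → (App E s k' c ↔ App E b k c)) ∧ IsRed E w A e s φ

/-- `y = L'_α` -/
def IsLev (w : Bool) (α y : M) : Prop :=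
  ∃ h, App E h α y ∧ ∀ β, (E β α ∨ β = α) → ∃ z, App E h β z ∧ (∀ z', App E h β z' → z' = z) ∧
    (IsEmp E β → IsEmp E z) ∧
    (∀ γ u, IsSuc E γ β → App E h γ u → ∀ X, E X z ↔ IsDefin E w u X) ∧
    ((∃ γ, E γ β) → (∀ γ, E γ β → ∃ δ, E δ β ∧ E γ δ) →
      ∀ X, E X z ↔ ∃ γ u, E γ β ∧ App E h γ u ∧ E X u)

/-- `x` belongs to the inner model `C(Δ(L(Q₁)))` or `C(Δ(L(Q₁, W)))` -/
def InC (w : Bool) (x : M) : Prop := ∃ α y, IsOrd E α ∧ IsLev E w α y ∧ E x y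

/-- `x` is a subset of `ω` -/
def IsReal (x : M) : Prop := ∀ n, E n x → IsNat E n

end Pool.Agent.H86.CM
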