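import Pool.Agent.H86.CM.Lev

/-!
# All elements of the inner models are locally invariant
-/

set_option autoImplicit false
set_option linter.unusedTactic false
set_option linter.unreachableTactic false

namespace Pool.Agent.H86.CM

open BV Ordinal

/-- `e` is the membership relation on `A` -/
def Mre {M : Type 1} (E : M → M → Prop) (A e : M) : Prop :=
  ∀ p, E p e ↔ ∃ x y, E x A ∧ E y A ∧ E x y ∧ IsOPair E p x y

/-- `X` is defined over `A` by the formula `φ` with the parameters `s`, with `n` constants -/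
def Dfx {M : Type 1} (E : M → M → Prop) (w : Bool) (A n s e φ X : M) : Prop :=
  ∀ a, E a X ↔ E a A ∧ ∃ t, IsFn E t (fun k => E k n) (fun _ a => E a A) ∧
    (∀ z, IsEmp E z → App E t z a) ∧
    (∀ k k' c, IsSuc E k k' → (App E t k' c ↔ App E s k c)) ∧ IsRed E w A e t φ

/-- the matrix of `IsDefin` -/
def Mx {M : Type 1} (E : M → M → Prop) (w : Bool) (A X m n φ s e : M) : Prop :=
  IsNat E m ∧ IsSuc E m n ∧ IsFm E w φ ∧ IsFn E s (fun k => E k m) (fun _ a => E a A) ∧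
    Mre E A e ∧ Dfx E w A n s e φ X

theorem mx_of_isDefin {M : Type 1} {E : M → M → Prop} {w : Bool} {A X : M}
    (h : IsDefin E w A X) : ∃ m n φ s e, Mx E w A X m n φ s e := by
  obtain ⟨m, n, φ, ψ, s, e, hm, hn, hd, hs, he, hX⟩ := h
  exact ⟨m, n, φ, s, e, hm, hn, hd.1, hs, he, hX⟩

theorem fo_mre (i j : ℕ) : FO.{1} fun _ E v => Mre E (v i) (v j) := by
  unfold Mre
  repeat' first
    | exact fo_mem _ _
    | exact fo_opair _ _ _
    | refine fo_and ?_ ?_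
    | refine fo_iff ?_ ?_
    | refine fo_all ?_
    | refine fo_ex ?_

theorem fo_dfx (w : Bool) (i1 i2 i3 i4 i5 i6 : ℕ) :
    FO.{1} fun _ E v => Dfx E w (v i1) (v i2) (v i3) (v i4) (v i5) (v i6) := by
  unfold Dfx IsFn
  repeat' first
    | exact fo_mem _ _
    | exact fo_eq _ _
    | exact fo_emp _
    | exact fo_suc _ _
    | exact fo_opair _ _ _
    | exact fo_app _ _ _
    | exact fo_red _ _ _ _ _
    | refine fo_and ?_ ?_
    | refine fo_iff ?_ ?_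
    | refine fo_imp ?_ ?_
    | refine fo_all ?_
    | refine fo_ex ?_

theorem fo_mx (w : Bool) (i1 i2 i3 i4 i5 i6 i7 : ℕ) :
    FO.{1} fun _ E v => Mx E w (v i1) (v i2) (v i3) (v i4) (v i5) (v i6) (v i7) := by
  unfold Mx IsFn
  repeat' first
    | exact fo_mem _ _
    | exact fo_eq _ _
    | exact fo_nat _
    | exact fo_fm _ _
    | exact fo_mre _ _
    | exact fo_dfx _ _ _ _ _ _ _
    | exact fo_emp _
    | exact fo_suc _ _
    | exact fo_opair _ _ _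
    | exact fo_app _ _ _
    | refine fo_and ?_ ?_
    | refine fo_iff ?_ ?_
    | refine fo_imp ?_ ?_
    | refine fo_all ?_
    | refine fo_ex ?_

variable {B : Type} [CompleteBooleanAlgebra B] {Γ : Set (B ≃o B)}

/-- the successor step -/
theorem defin_inv {w : Bool} {δ : Ordinal.{0}}
    (ih : ∀ b : B, b ≠ ⊥ → ∀ x y : BSet B, (∀ U : UF B, b ∈ U →
      IsLev (MU.E U) w (ck U δ) (MU.mk U y) ∧ MU.E U (MU.mk U x) (MU.mk U y)) →
      ∃ b' ≤ b, b' ≠ ⊥ ∧ ∃ x', Inv Γ x' ∧ ∀ U : UF B, b' ∈ U → MU.mk U x = MU.mk U x')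
    {b : B} (hb : b ≠ ⊥) {A x : BSet B} (hA : ∀ U : UF B, b ∈ U →
      IsLev (MU.E U) w (ck U δ) (MU.mk U A) ∧ IsDefin (MU.E U) w (MU.mk U A) (MU.mk U x)) :
    ∃ b' ≤ b, b' ≠ ⊥ ∧ ∃ x', Inv Γ x' ∧ ∀ U : UF B, b' ∈ U → MU.mk U x = MU.mk U x' := by
  -- names for the witnesses
  obtain ⟨m, hm⟩ := frc_ex (B := B)
    (P := fun _ E v => ∃ n φ s e, Mx E w (v 1) (v 2) (v 0) n φ s e)
    (fo_ex (fo_ex (fo_ex (fo_ex (fo_mx w 5 6 4 3 2 1 0))))) (cns A (cns x fun _ => x)) b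
    (fun U hU => by
      obtain ⟨m, n, φ, s, e, h⟩ := mx_of_isDefin (hA U hU).2
      exact ⟨m, n, φ, s, e, h⟩)
  obtain ⟨n, hn⟩ := frc_ex (B := B)
    (P := fun _ E v => ∃ φ s e, Mx E w (v 2) (v 3) (v 1) (v 0) φ s e)
    (fo_ex (fo_ex (fo_ex (fo_mx w 5 6 4 3 2 1 0)))) (cns m (cns A (cns x fun _ => x))) b hm
  obtain ⟨φ, hφ⟩ := frc_ex (B := B)
    (P := fun _ E v => ∃ s e, Mx E w (v 3) (v 4) (v 2) (v 1) (v 0) s e)
    (fo_ex (fo_ex (fo_mx w 5 6 4 3 2 1 0))) (cns n (cns m (cns A (cns x fun _ => x)))) b hn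
  obtain ⟨s, hs⟩ := frc_ex (B := B)
    (P := fun _ E v => ∃ e, Mx E w (v 4) (v 5) (v 3) (v 2) (v 1) (v 0) e)
    (fo_ex (fo_mx w 5 6 4 3 2 1 0)) (cns φ (cns n (cns m (cns A (cns x fun _ => x))))) b hφ
  obtain ⟨e, he⟩ := frc_ex (B := B)
    (P := fun _ E v => Mx E w (v 5) (v 6) (v 4) (v 3) (v 2) (v 1) (v 0))
    (fo_mx w 5 6 4 3 2 1 0) (cns s (cns φ (cns n (cns m (cns A (cns x fun _ => x)))))) b hs
  have hMx : ∀ U : UF B, b ∈ U → Mx (MU.E U) w (MU.mk U A) (MU.mk U x) (MU.mk U m) (MU.mk U n)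
      (MU.mk U φ) (MU.mk U s) (MU.mk U e) := he
  -- the level
  obtain ⟨A', hA'inv, hA'⟩ := def_inv (Γ := Γ) (P := fun _ E v => IsLev E w (v 1) (v 0))
    (fo_lev w 1 0) (fun _ => chk B δ) (fun _ => inv_chk δ)
    (fun U m m' h1 h2 => lev_unique w δ U m m' h1 h2)
  have hAA' : ∀ U : UF B, b ∈ U → MU.mk U A = MU.mk U A' := fun U hU => hA' U _ (hA U hU).1
  -- the length
  obtain ⟨β, hβ, b1, hb1, hne1, hm1⟩ := frc_chk hb (x := m) (α := ω)
    (fun U hU => mem_omega_of_isNat U (hMx U hU).1)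
  obtain ⟨k, rfl⟩ := lt_omega0.mp hβ
  have hn1 : ∀ U : UF B, b1 ∈ U → MU.mk U n = ck U ((k : Ordinal.{0}) + 1) := by
    intro U hU
    have h1 := (hMx U (U.mem_of_le hU hb1)).2.1
    rw [hm1 U hU] at h1
    exact (isSuc_iff U _ _).mp h1
  -- the formula
  have h2 : b1 ≤ ⨆ d, beq φ (cdn B d) := by
    rw [← mem_HF_iff]
    exact UF.le_of_forall fun U hU => isFm_mem_HF U (hMx U (U.mem_of_le hU hb1)).2.2.1
  obtain ⟨b2, hb2, hne2, φ', ⟨d, rfl⟩, hφ2⟩ := loc_of_le_iSup (C := Set.range (cdn B))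
    (fun d => ⟨d, rfl⟩) h2 b1 le_rfl hne1
  -- the parameters
  obtain ⟨b3, hb3, hne3, c, hc, hs3⟩ := seq_loc (C := {y | Inv Γ y}) k hne2 (t := s)
    (S := fun U a => MU.E U a (MU.mk U A)) (fun U hU => by
      have h3 := (hMx U (U.mem_of_le hU (hb2.trans hb1))).2.2.2.1
      rw [hm1 U (U.mem_of_le hU hb2)] at h3
      exact h3) (fun b' hb' hne a ha => by
      obtain ⟨b'', h4, h5, y, h6, h7⟩ := ih b' hne a A (fun U hU =>
        ⟨(hA U (U.mem_of_le hU (hb'.trans (hb2.trans hb1)))).1, ha U hU⟩)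
      exact ⟨b'', h4, h5, y, h6, h7⟩)
  have hb3b : b3 ≤ b := hb3.trans (hb2.trans hb1)
  -- the membership relation
  obtain ⟨e', he'inv, he'⟩ := def_inv (Γ := Γ) (P := fun _ E v => Mre E (v 1) (v 0))
    (fo_mre 1 0) (fun _ => A') (fun _ => hA'inv)
    (fun U m m' h1 h2 => MU.ext_E U _ _ fun p => (h1 p).trans (h2 p).symm)
  -- the set
  obtain ⟨x', hx'inv, hx'⟩ := def_inv (Γ := Γ)
    (P := fun _ E v => Dfx E w (v 1) (v 2) (v 3) (v 4) (v 5) (v 0)) (fo_dfx w 1 2 3 4 5 0)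
    (cns A' (cns (chk B ((k : Ordinal.{0}) + 1)) (cns (sqn k c) (cns e' fun _ => cdn B d)))) (by
      intro i
      match i with
      | 0 => exact hA'inv
      | 1 => exact inv_chk _
      | 2 => exact inv_sqn hc
      | 3 => exact he'inv
      | i + 4 => exact inv_cdn d)
    (fun U m m' h1 h2 => MU.ext_E U _ _ fun p => (h1 p).trans (h2 p).symm)
  refine ⟨b3, hb3b, hne3, x', hx'inv, fun U hU => ?_⟩
  apply hx' U
  have hU' : b ∈ U := U.mem_of_le hU hb3b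
  obtain ⟨_, _, _, _, h8, h9⟩ := hMx U hU'
  have h10 : MU.mk U e = MU.mk U e' := by
    apply he' U
    rw [hAA' U hU'] at h8
    exact h8
  change Dfx (MU.E U) w (MU.mk U A') (ck U ((k : Ordinal.{0}) + 1)) (MU.mk U (sqn k c))
    (MU.mk U e') (MU.mk U (cdn B d)) (MU.mk U x)
  rw [← hAA' U hU', ← hn1 U (U.mem_of_le hU (hb3.trans hb2)), ← hs3 U hU, ← h10,
    ← hφ2 U (U.mem_of_le hU hb3)]
  exact h9

theorem lev_inv (w : Bool) (γ : Ordinal.{0}) : ∀ b : B, b ≠ ⊥ → ∀ x y : BSet B,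
    (∀ U : UF B, b ∈ U → IsLev (MU.E U) w (ck U γ) (MU.mk U y) ∧
      MU.E U (MU.mk U x) (MU.mk U y)) →
    ∃ b' ≤ b, b' ≠ ⊥ ∧ ∃ x', Inv Γ x' ∧ ∀ U : UF B, b' ∈ U → MU.mk U x = MU.mk U x' := by
  induction γ using WellFoundedLT.induction with
  | ind γ ih =>
    intro b hb x y h
    rcases Ordinal.zero_or_succ_or_isSuccLimit γ with rfl | ⟨δ, rfl⟩ | hγ
    · obtain ⟨U, hU⟩ := UF.exists_mem hb
      exact absurd (h U hU).2 (lev_zero U (h U hU).1 _)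
    · obtain ⟨A, hA⟩ := frc_ex (B := B)
        (P := fun _ E v => IsLev E w (v 1) (v 0) ∧ IsDefin E w (v 0) (v 2))
        (fo_and (fo_lev w 1 0) (fo_defin w 0 2)) (cns (chk B δ) (cns x fun _ => x)) b
        (fun U hU => by
          obtain ⟨u, hu, hX⟩ := lev_succ U (h U hU).1
          exact ⟨u, hu, (hX _).mp (h U hU).2⟩)
      exact defin_inv (ih δ (Order.lt_succ δ)) hb hA
    · obtain ⟨β, hβ⟩ := frc_ex (B := B)
        (P := fun _ E v => ∃ u, E (v 0) (v 1) ∧ IsLev E w (v 0) u ∧ E (v 2) u)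
        (fo_ex (fo_and (fo_mem 1 2) (fo_and (fo_lev w 1 0) (fo_mem 3 0))))
        (cns (chk B γ) (cns x fun _ => x)) b (fun U hU => by
          obtain ⟨_, _, hX⟩ := lev_limit U hγ (h U hU).1
          obtain ⟨β, u, hβ, _, hu, hXu⟩ := (hX _).mp (h U hU).2
          exact ⟨β, u, hβ, hu, hXu⟩)
      obtain ⟨u, hu⟩ := frc_ex (B := B)
        (P := fun _ E v => E (v 1) (v 2) ∧ IsLev E w (v 1) (v 0) ∧ E (v 3) (v 0))
        (fo_and (fo_mem 1 2) (fo_and (fo_lev w 1 0) (fo_mem 3 0)))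
        (cns β (cns (chk B γ) (cns x fun _ => x))) b hβ
      have hu' : ∀ U : UF B, b ∈ U → MU.E U (MU.mk U β) (ck U γ) ∧
        IsLev (MU.E U) w (MU.mk U β) (MU.mk U u) ∧ MU.E U (MU.mk U x) (MU.mk U u) := hu
      obtain ⟨ξ, hξ, b1, hb1, hne1, h1⟩ := frc_chk hb (x := β) (α := γ) (fun U hU => (hu' U hU).1)
      obtain ⟨b2, hb2, hne2, x', hx', h2⟩ := ih ξ hξ b1 hne1 x u (fun U hU => by
        have h3 := hu' U (U.mem_of_le hU hb1)
        rw [h1 U hU] at h3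
        exact h3.2)
      exact ⟨b2, hb2.trans hb1, hne2, x', hx', h2⟩

/-- every element of the inner model is locally equal to an invariant name -/
theorem inC_inv (w : Bool) {b : B} (hb : b ≠ ⊥) {x : BSet B}
    (h : ∀ U : UF B, b ∈ U → InC (MU.E U) w (MU.mk U x)) :
    ∃ b' ≤ b, b' ≠ ⊥ ∧ ∃ x', Inv Γ x' ∧ ∀ U : UF B, b' ∈ U → MU.mk U x = MU.mk U x' := by
  obtain ⟨α, hα⟩ := frc_ex (B := B)
    (P := fun _ E v => ∃ y, IsOrd E (v 0) ∧ IsLev E w (v 0) y ∧ E (v 1) y)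
    (fo_ex (fo_and (fo_ord 1) (fo_and (fo_lev w 1 0) (fo_mem 2 0)))) (fun _ => x) b h
  obtain ⟨y, hy⟩ := frc_ex (B := B)
    (P := fun _ E v => IsOrd E (v 1) ∧ IsLev E w (v 1) (v 0) ∧ E (v 2) (v 0))
    (fo_and (fo_ord 1) (fo_and (fo_lev w 1 0) (fo_mem 2 0))) (cns α fun _ => x) b hα
  have hy' : ∀ U : UF B, b ∈ U → IsOrd (MU.E U) (MU.mk U α) ∧
    IsLev (MU.E U) w (MU.mk U α) (MU.mk U y) ∧ MU.E U (MU.mk U x) (MU.mk U y) := hy
  obtain ⟨β, b1, hb1, hne1, h1⟩ := frc_ord hb (a := α) (fun U hU => (hy' U hU).1)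
  obtain ⟨b2, hb2, hne2, x', hx', h2⟩ := lev_inv (Γ := Γ) w β b1 hne1 x y (fun U hU => by
    have h3 := hy' U (U.mem_of_le hU hb1)
    rw [h1 U hU] at h3
    exact h3.2)
  exact ⟨b2, hb2.trans hb1, hne2, x', hx', h2⟩

end Pool.Agent.H86.CM
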