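import Pool.Agent.H86.CM.Names

/-!
# Elements of the levels are locally invariant
-/

set_option autoImplicit false

namespace Pool.Agent.H86.CM

open BV Ordinal

variable {B : Type} [CompleteBooleanAlgebra B]

theorem hf_code (U : UF B) {k : ℕ} {p q : MU U} (hq : MU.E U q (MU.mk U (HF B)))
    (hp : IsCode (MU.E U) k p q) : MU.E U p (MU.mk U (HF B)) := by
  obtain ⟨t, ht, hp⟩ := hp
  rw [isNum_iff] at ht
  subst ht
  exact hf_pair U (hf_nat U (isNat_ck U k)) hq hp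

theorem hf_var (U : UF B) {s x : MU U} (hs : IsNat (MU.E U) s) (hx : IsVar (MU.E U) s x) :
    MU.E U x (MU.mk U (HF B)) := by
  obtain ⟨i, hi, hx⟩ := hx
  exact hf_pair U (hf_nat U hs) (hf_nat U hi) hx

theorem isNat_of_isEmp (U : UF B) {s : MU U} (hs : IsEmp (MU.E U) s) : IsNat (MU.E U) s := by
  rw [(isEmp_iff U s).mp hs]
  have h := isNat_ck U 0
  rwa [Nat.cast_zero] at h

theorem step_closed (U : UF B) (w : Bool) (p : MU U)
    (h : Step (MU.E U) w (MU.mk U (HF B)) p) : MU.E U p (MU.mk U (HF B)) := by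
  rcases h with h | h | h | h | h | h | h | h
  · obtain ⟨s, x, y, q, hs, hx, hy, hq, hp⟩ := h
    exact hf_code U (hf_pair U (hf_var U hs hx) (hf_var U hs hy) hq) hp
  · obtain ⟨s, x, y, q, hs, hx, hy, hq, hp⟩ := h
    have hs' := isNat_of_isEmp U hs
    exact hf_code U (hf_pair U (hf_var U hs' hx) (hf_var U hs' hy) hq) hp
  · obtain ⟨s, x, k, q, hs, hx, hk, hq, hp⟩ := h
    exact hf_code U (hf_pair U (hf_var U (isNat_of_isEmp U hs) hx) (hf_nat U hk) hq) hp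
  · obtain ⟨r, n, t, q, hr, hn, ht, hq, hp⟩ := h
    refine hf_code U (hf_pair U (hf_nat U hr) (hf_seq U hn ⟨fun p hp => ?_, ht.2⟩) hq) hp
    obtain ⟨x, y, hx, ⟨s, hs, hy⟩, hp⟩ := ht.1 p hp
    exact ⟨x, y, hx, hf_var U hs hy, hp⟩
  · obtain ⟨φ, hφ, hp⟩ := h
    exact hf_code U hφ hp
  · obtain ⟨φ, ψ, q, hφ, hψ, hq, hp⟩ := h
    exact hf_code U (hf_pair U hφ hψ hq) hp
  · obtain ⟨s, x, φ, q, hs, hx, hφ, hq, hp⟩ := h
    have h1 := hf_pair U (hf_var U hs hx) hφ hq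
    rcases hp with hp | hp
    · exact hf_code U h1 hp
    · exact hf_code U h1 hp
  · obtain ⟨_, s, x, y, z, φ, q, hs, hx, hy, hz, hφ, hq, hp⟩ := h
    exact hf_code U (hf_pair U (hf_pair U (hf_var U hs hx) (hf_var U hs hy) hz) hφ hq) hp

theorem isFm_mem_HF (U : UF B) {w : Bool} {φ : MU U} (h : IsFm (MU.E U) w φ) :
    MU.E U φ (MU.mk U (HF B)) := h _ (step_closed U w)

/-- names of ordinals are locally check names -/
theorem frc_ord {b : B} (hb : b ≠ ⊥) {a : BSet B}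
    (h : ∀ U : UF B, b ∈ U → IsOrd (MU.E U) (MU.mk U a)) :
    ∃ β : Ordinal.{0}, ∃ b' ≤ b, b' ≠ ⊥ ∧ ∀ U : UF B, b' ∈ U → MU.mk U a = ck U β := by
  by_contra hcon
  push Not at hcon
  have h1 : ∀ β : Ordinal.{0}, b ⊓ beq a (chk B β) = ⊥ := by
    intro β
    by_contra hne
    obtain ⟨U, hU, hU'⟩ := hcon β (b ⊓ beq a (chk B β)) inf_le_left hne
    exact hU' ((MU.mk_eq_iff U _ _).mpr (U.mem_of_le hU inf_le_right))
  have h2 : ∀ β : Ordinal.{0}, b ≤ bmem (chk B β) a := by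
    intro β
    refine UF.le_of_forall fun U hU => ?_
    rcases MU.trichotomy U (MU.mk U a) (ck U β) (h U hU) (isOrd_ck U β) with h3 | h3 | h3
    · have h4 : bmem a (chk B β) ∈ U := h3
      rw [bmem_chk] at h4
      have h5 := U.inf_mem hU h4
      rw [inf_iSup_eq] at h5
      have h6 : (⨆ γ : Set.Iio β, b ⊓ beq a (chk B γ)) = ⊥ := by
        rw [iSup_eq_bot]
        exact fun γ => h1 γ
      rw [h6] at h5
      exact absurd h5 U.bot_notMem
    · have h4 : beq a (chk B β) ∈ U := (MU.mk_eq_iff U _ _).mp h3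
      have h5 := U.inf_mem hU h4
      rw [h1] at h5
      exact absurd h5 U.bot_notMem
    · exact h3
  have h3 : ∀ β : Ordinal.{0}, ∃ i : a.Idx, b ⊓ (a.vl i ⊓ beq (chk B β) (a.nm i)) ≠ ⊥ := by
    intro β
    refine exists_inf_ne_bot hb ?_
    rw [← bmem_eq]
    exact h2 β
  choose i hi using h3
  refine not_injective_of_ordinal
    (fun β : Ordinal.{0} => ((i β, b ⊓ (a.vl (i β) ⊓ beq (chk B β) (a.nm (i β)))) : a.Idx × B)) ?_
  intro β γ hβγ
  by_contra hne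
  simp only [Prod.mk.injEq] at hβγ
  obtain ⟨h4, h5⟩ := hβγ
  apply hi β
  rw [← le_bot_iff, ← beq_chk_of_ne (B := B) hne]
  have h6 : b ⊓ (a.vl (i β) ⊓ beq (chk B β) (a.nm (i β))) ≤ beq (chk B β) (a.nm (i β)) :=
    inf_le_right.trans inf_le_right
  have h7 : b ⊓ (a.vl (i β) ⊓ beq (chk B β) (a.nm (i β))) ≤ beq (a.nm (i β)) (chk B γ) := by
    rw [h5, h4, beq_symm (a.nm (i γ))]
    exact inf_le_right.trans inf_le_right
  exact (le_inf h6 h7).trans (beq_trans _ _ _)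

/-! ## Levels -/

theorem lev_restrict {M : Type 1} {E : M → M → Prop} {w : Bool} {α h : M}
    (hα : ∀ β, E β α → ∀ γ, E γ β → E γ α)
    (hh : ∀ β, (E β α ∨ β = α) → ∃ z, App E h β z ∧ (∀ z', App E h β z' → z' = z) ∧
      (IsEmp E β → IsEmp E z) ∧
      (∀ γ u, IsSuc E γ β → App E h γ u → ∀ X, E X z ↔ IsDefin E w u X) ∧
      ((∃ γ, E γ β) → (∀ γ, E γ β → ∃ δ, E δ β ∧ E γ δ) →
        ∀ X, E X z ↔ ∃ γ u, E γ β ∧ App E h γ u ∧ E X u))
    {β : M} (hβ : E β α) {u : M} (hu : App E h β u) : IsLev E w β u := by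
  refine ⟨h, hu, fun γ hγ => hh γ (Or.inl ?_)⟩
  rcases hγ with hγ | rfl
  · exact hα β hβ γ hγ
  · exact hβ

theorem ck_trans (U : UF B) (γ : Ordinal.{0}) :
    ∀ β, MU.E U β (ck U γ) → ∀ δ, MU.E U δ β → MU.E U δ (ck U γ) :=
  fun β hβ δ hδ => (isOrd_ck U γ).1 β hβ δ hδ

theorem lev_zero (U : UF B) {w : Bool} {y : MU U} (h : IsLev (MU.E U) w (ck U 0) y) :
    IsEmp (MU.E U) y := by
  obtain ⟨h, hy, hh⟩ := h
  obtain ⟨z, _, hz', h1, _⟩ := hh (ck U 0) (Or.inr rfl)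
  rw [hz' y hy]
  exact h1 ((isEmp_iff U _).mpr rfl)

theorem lev_succ (U : UF B) {w : Bool} {δ : Ordinal.{0}} {y : MU U}
    (h : IsLev (MU.E U) w (ck U (δ + 1)) y) : ∃ u, IsLev (MU.E U) w (ck U δ) u ∧
      ∀ X, MU.E U X y ↔ IsDefin (MU.E U) w u X := by
  obtain ⟨h, hy, hh⟩ := h
  have hδ : MU.E U (ck U δ) (ck U (δ + 1)) := (E_ck U _ _).mpr (Order.lt_add_one_iff.mpr le_rfl)
  obtain ⟨u, hu, _⟩ := hh (ck U δ) (Or.inl hδ)
  obtain ⟨z, _, hz', _, h2, _⟩ := hh (ck U (δ + 1)) (Or.inr rfl)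
  refine ⟨u, lev_restrict (ck_trans U _) hh hδ hu, ?_⟩
  rw [hz' y hy]
  exact h2 (ck U δ) u (isSuc_ck U δ) hu

theorem lev_limit (U : UF B) {w : Bool} {γ : Ordinal.{0}} (hγ : Order.IsSuccLimit γ) {y : MU U}
    (h : IsLev (MU.E U) w (ck U γ) y) : ∃ h : MU U,
      (∀ β, MU.E U β (ck U γ) → ∃ u, App (MU.E U) h β u ∧ IsLev (MU.E U) w β u) ∧
      ∀ X, MU.E U X y ↔ ∃ β u, MU.E U β (ck U γ) ∧ App (MU.E U) h β u ∧
        IsLev (MU.E U) w β u ∧ MU.E U X u := by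
  obtain ⟨h, hy, hh⟩ := h
  obtain ⟨z, _, hz', _, _, h3⟩ := hh (ck U γ) (Or.inr rfl)
  have h0 : (0 : Ordinal.{0}) < γ := pos_iff_ne_zero.mpr (fun h => by
    subst h
    exact hγ.1 isMin_bot)
  have h4 : ∀ β, MU.E U β (ck U γ) → ∃ δ, MU.E U δ (ck U γ) ∧ MU.E U β δ := by
    intro β hβ
    refine ball_chk (B := B) (P := fun _ E v => ∃ δ, E δ (v 1) ∧ E (v 0) δ)
      (fo_ex (fo_and (fo_mem 0 2) (fo_mem 1 0))) (fun _ => chk B γ) γ ?_ U β hβ
    intro V ξ hξ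
    exact ⟨ck V (ξ + 1), (E_ck V _ _).mpr (hγ.add_one_lt hξ),
      (E_ck V _ _).mpr (Order.lt_add_one_iff.mpr le_rfl)⟩
  refine ⟨h, fun β hβ => ?_, fun X => ?_⟩
  · obtain ⟨u, hu, _⟩ := hh β (Or.inl hβ)
    exact ⟨u, hu, lev_restrict (ck_trans U _) hh hβ hu⟩
  · rw [hz' y hy, h3 ⟨ck U 0, (E_ck U _ _).mpr h0⟩ h4]
    constructor
    · rintro ⟨β, u, hβ, hu, hX⟩
      exact ⟨β, u, hβ, hu, lev_restrict (ck_trans U _) hh hβ hu, hX⟩
    · rintro ⟨β, u, hβ, hu, _, hX⟩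
      exact ⟨β, u, hβ, hu, hX⟩

theorem lev_unique (w : Bool) (γ : Ordinal.{0}) : ∀ (U : UF B) (y y' : MU U),
    IsLev (MU.E U) w (ck U γ) y → IsLev (MU.E U) w (ck U γ) y' → y = y' := by
  induction γ using WellFoundedLT.induction with
  | ind γ ih =>
    intro U y y' hy hy'
    rcases Ordinal.zero_or_succ_or_isSuccLimit γ with rfl | ⟨δ, rfl⟩ | hγ
    · have h1 := lev_zero U hy
      have h2 := lev_zero U hy'
      exact MU.ext_E U _ _ fun z => ⟨fun h => absurd h (h1 z), fun h => absurd h (h2 z)⟩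
    · obtain ⟨u, hu, h1⟩ := lev_succ U hy
      obtain ⟨u', hu', h2⟩ := lev_succ U hy'
      have h3 := ih δ (Order.lt_add_one_iff.mpr le_rfl) U u u' hu hu'
      subst h3
      exact MU.ext_E U _ _ fun z => (h1 z).trans (h2 z).symm
    · have h3 : ∀ β, MU.E U β (ck U γ) → ∀ u u', IsLev (MU.E U) w β u → IsLev (MU.E U) w β u' →
          u = u' := by
        intro β hβ
        refine ball_chk (B := B)
          (P := fun _ E v => ∀ u u', IsLev E w (v 0) u → IsLev E w (v 0) u' → u = u')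
          (fo_all (fo_all (fo_imp (fo_lev w 2 1) (fo_imp (fo_lev w 2 0) (fo_eq 1 0)))))
          (fun _ => chk B γ) γ ?_ U β hβ
        intro V ξ hξ
        exact ih ξ hξ V
      obtain ⟨h, hh, h1⟩ := lev_limit U hγ hy
      obtain ⟨h', hh', h2⟩ := lev_limit U hγ hy'
      apply MU.ext_E U
      intro X
      rw [h1, h2]
      constructor
      · rintro ⟨β, u, hβ, _, hu, hX⟩
        obtain ⟨u', hu', hl⟩ := hh' β hβ
        have h4 := h3 β hβ u u' hu hl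
        subst h4
        exact ⟨β, u, hβ, hu', hl, hX⟩
      · rintro ⟨β, u, hβ, _, hu, hX⟩
        obtain ⟨u', hu', hl⟩ := hh β hβ
        have h4 := h3 β hβ u u' hu hl
        subst h4
        exact ⟨β, u, hβ, hu', hl, hX⟩

end Pool.Agent.H86.CM
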