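import Pool.Agent.H86.CM.Force

/-!
# Numbers, finite sequences and hereditarily finite names
-/

set_option autoImplicit false

namespace Pool.Agent.H86.CM

open BV Ordinal

variable {B : Type} [CompleteBooleanAlgebra B]

theorem not_mem_ck_zero (U : UF B) (m : MU U) : ¬ MU.E U m (ck U 0) := by
  obtain ⟨x, rfl⟩ := MU.mk_surj U m
  intro h
  have h1 : bmem x (chk B (0 : Ordinal.{0})) ∈ U := h
  rw [bmem_chk] at h1
  have h2 : (⨆ β : Set.Iio (0 : Ordinal.{0}), beq x (chk B β)) = ⊥ := by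
    rw [iSup_eq_bot]
    rintro ⟨β, hβ⟩
    exact absurd (Set.mem_Iio.mp hβ) not_lt_zero
  rw [h2] at h1
  exact U.bot_notMem h1

theorem isEmp_iff (U : UF B) (m : MU U) : IsEmp (MU.E U) m ↔ m = ck U 0 := by
  constructor
  · intro h
    exact MU.ext_E U _ _ fun z => ⟨fun h' => absurd h' (h z), fun h' => absurd h' (not_mem_ck_zero U z)⟩
  · rintro rfl
    exact not_mem_ck_zero U

theorem mem_ck_succ (U : UF B) (α : Ordinal.{0}) (m : MU U) :
    MU.E U m (ck U (α + 1)) ↔ MU.E U m (ck U α) ∨ m = ck U α := by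
  obtain ⟨x, rfl⟩ := MU.mk_surj U m
  unfold ck
  rw [MU.E_mk, MU.E_mk, MU.mk_eq_iff, ← Order.succ_eq_add_one, zfc_bmem_succ, UF.sup_mem_iff]

theorem isSuc_ck (U : UF B) (α : Ordinal.{0}) : IsSuc (MU.E U) (ck U α) (ck U (α + 1)) :=
  fun m => mem_ck_succ U α m

theorem isSuc_iff (U : UF B) (α : Ordinal.{0}) (m : MU U) :
    IsSuc (MU.E U) (ck U α) m ↔ m = ck U (α + 1) := by
  constructor
  · intro h
    exact MU.ext_E U _ _ fun z => (h z).trans (isSuc_ck U α z).symm
  · rintro rfl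
    exact isSuc_ck U α

theorem isNum_iff (U : UF B) (k : ℕ) : ∀ m : MU U, IsNum (MU.E U) k m ↔ m = ck U k := by
  induction k with
  | zero =>
    intro m
    rw [Nat.cast_zero]
    exact isEmp_iff U m
  | succ k ih =>
    intro m
    have h1 : ((k + 1 : ℕ) : Ordinal.{0}) = (k : Ordinal.{0}) + 1 := by push_cast; rfl
    rw [h1]
    constructor
    · rintro ⟨n, hn, hm⟩
      rw [ih] at hn
      subst hn
      exact (isSuc_iff U _ m).mp hm
    · intro hm
      exact ⟨ck U k, (ih _).mpr rfl, (isSuc_iff U _ m).mpr hm⟩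

theorem mem_omega_of_isNat (U : UF B) {m : MU U} (h : IsNat (MU.E U) m) : MU.E U m (ck U ω) := by
  refine h (ck U ω) ?_ ?_
  · intro z hz
    rw [(isEmp_iff U z).mp hz, E_ck]
    exact omega0_pos
  · intro x y hx hy
    have h1 := ball_chk (B := B) (P := fun _ E w => ∀ y, IsSuc E (w 0) y → E y (w 1))
      (fo_all (fo_imp (fo_suc 1 0) (fo_mem 0 2))) (fun _ => chk B ω) ω ?_ U x hx
    · exact h1 y hy
    · intro V β hβ y hy
      change IsSuc (MU.E V) (ck V β) y at hy
      change MU.E V y (ck V ω)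
      rw [(isSuc_iff V β y).mp hy, E_ck]
      exact isSuccLimit_omega0.add_one_lt hβ

theorem isNat_ck (U : UF B) (n : ℕ) : IsNat (MU.E U) (ck U n) := by
  intro W h1 h2
  induction n with
  | zero =>
    rw [Nat.cast_zero]
    exact h1 _ ((isEmp_iff U _).mpr rfl)
  | succ n ih =>
    have h3 : ((n + 1 : ℕ) : Ordinal.{0}) = (n : Ordinal.{0}) + 1 := by push_cast; rfl
    rw [h3]
    exact h2 _ _ ih (isSuc_ck U n)

theorem isNat_of_mem_omega (U : UF B) {m : MU U} (h : MU.E U m (ck U ω)) :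
    IsNat (MU.E U) m := by
  refine ball_chk (B := B) (P := fun _ E w => IsNat E (w 0)) (fo_nat 0) (fun _ => chk B ω) ω ?_ U m h
  intro V β hβ
  obtain ⟨n, rfl⟩ := lt_omega0.mp hβ
  exact isNat_ck V n

theorem mem_ck_nat (U : UF B) (k : ℕ) (m : MU U) :
    MU.E U m (ck U k) ↔ ∃ i < k, m = ck U (i : ℕ) := by
  induction k with
  | zero =>
    rw [Nat.cast_zero]
    exact ⟨fun h => absurd h (not_mem_ck_zero U m), fun ⟨i, hi, _⟩ => absurd hi (Nat.not_lt_zero i)⟩
  | succ k ih =>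
    have h3 : ((k + 1 : ℕ) : Ordinal.{0}) = (k : Ordinal.{0}) + 1 := by push_cast; rfl
    rw [h3, mem_ck_succ, ih]
    constructor
    · rintro (⟨i, hi, h⟩ | h)
      · exact ⟨i, hi.trans (Nat.lt_succ_self k), h⟩
      · exact ⟨k, Nat.lt_succ_self k, h⟩
    · rintro ⟨i, hi, h⟩
      rcases (Nat.lt_succ_iff.mp hi).lt_or_eq with h4 | rfl
      · exact Or.inl ⟨i, h4, h⟩
      · exact Or.inr h

theorem uf_fin (U : UF B) {ι : Type*} [Finite ι] {f : ι → B} (h : (⨆ i, f i) ∈ U) :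
    ∃ i, f i ∈ U := by
  classical
  cases nonempty_fintype ι
  have key : ∀ s : Finset ι, s.sup f ∈ U → ∃ i ∈ s, f i ∈ U := by
    intro s
    induction s using Finset.induction_on with
    | empty =>
      intro h
      rw [Finset.sup_empty] at h
      exact absurd h U.bot_notMem
    | insert a s ha ih =>
      intro h
      rw [Finset.sup_insert, UF.sup_mem_iff] at h
      rcases h with h | h
      · exact ⟨a, Finset.mem_insert_self _ _, h⟩
      · obtain ⟨i, hi, hi'⟩ := ih h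
        exact ⟨i, Finset.mem_insert_of_mem hi, hi'⟩
  obtain ⟨i, -, hi⟩ := key Finset.univ (by rw [Finset.sup_univ_eq_iSup]; exact h)
  exact ⟨i, hi⟩

/-- the name of a finite sequence of names -/
noncomputable def sqn (k : ℕ) (c : Fin k → BSet B) : BSet B :=
  BSet.mk (Fin k) (fun i => opr (chk B ((i : ℕ) : Ordinal.{0})) (c i)) (fun _ => ⊤)

theorem mem_sqn (U : UF B) {k : ℕ} (c : Fin k → BSet B) (z : MU U) :
    MU.E U z (MU.mk U (sqn k c)) ↔
      ∃ i : Fin k, z = MU.mk U (opr (chk B ((i : ℕ) : Ordinal.{0})) (c i)) := by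
  obtain ⟨x, rfl⟩ := MU.mk_surj U z
  rw [MU.E_mk, sqn, bmem_mk]
  constructor
  · intro h
    obtain ⟨i, hi⟩ := uf_fin U h
    exact ⟨i, (MU.mk_eq_iff U _ _).mpr (U.mem_of_le hi inf_le_right)⟩
  · rintro ⟨i, hi⟩
    refine U.mem_of_le ?_ (le_iSup (fun i : Fin k =>
      ⊤ ⊓ beq x (opr (chk B ((i : ℕ) : Ordinal.{0})) (c i))) i)
    rw [top_inf_eq]
    exact (MU.mk_eq_iff U _ _).mp hi

theorem nmap_upr (π : B ≃o B) (x y : BSet B) : nmap π (upr x y) = upr (nmap π x) (nmap π y) := by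
  unfold upr
  simp only [nmap, map_top]
  congr 1
  funext i
  cases i.down <;> rfl

theorem nmap_opr (π : B ≃o B) (x y : BSet B) : nmap π (opr x y) = opr (nmap π x) (nmap π y) := by
  unfold opr
  rw [nmap_upr, nmap_upr, nmap_upr]

theorem mk_opr_congr (U : UF B) {x x' y y' : BSet B} (hx : MU.mk U x = MU.mk U x')
    (hy : MU.mk U y = MU.mk U y') : MU.mk U (opr x y) = MU.mk U (opr x' y') := by
  rw [MU.mk_eq_iff, beq_opr, UF.inf_mem_iff, ← MU.mk_eq_iff, ← MU.mk_eq_iff]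
  exact ⟨hx, hy⟩

variable {Γ : Set (B ≃o B)}

theorem inv_chk (α : Ordinal.{0}) : Inv Γ (chk B α) := by
  intro π _
  rw [nmap_chk, beq_refl]

theorem inv_opr {x y : BSet B} (hx : Inv Γ x) (hy : Inv Γ y) : Inv Γ (opr x y) := by
  intro π hπ
  rw [nmap_opr, beq_opr, hx π hπ, hy π hπ, inf_top_eq]

theorem inv_sqn {k : ℕ} {c : Fin k → BSet B} (hc : ∀ i, Inv Γ (c i)) : Inv Γ (sqn k c) := by
  intro π hπ
  have h1 : nmap π (sqn k c) = sqn k (fun i => nmap π (c i)) := by
    unfold sqn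
    simp only [nmap, map_top, nmap_opr, nmap_chk]
  rw [h1]
  refine UF.eq_top_of_forall fun U => ?_
  rw [← MU.mk_eq_iff]
  apply MU.ext_E U
  intro z
  rw [mem_sqn, mem_sqn]
  refine exists_congr fun i => ?_
  rw [mk_opr_congr U rfl (inv_mk (hc i) hπ U)]

/-- finite sequences of elements which are locally in `C` are locally names of finite sequences of
elements of `C` -/
theorem seq_loc {C : Set (BSet B)} (k : ℕ) {b : B} (hb : b ≠ ⊥) {t : BSet B}
    {S : ∀ U : UF B, MU U → Prop}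
    (ht : ∀ U : UF B, b ∈ U → IsFn (MU.E U) (MU.mk U t) (fun i => MU.E U i (ck U k))
      (fun _ a => S U a))
    (hS : ∀ b' ≤ b, b' ≠ ⊥ → ∀ a : BSet B, (∀ U : UF B, b' ∈ U → S U (MU.mk U a)) →
      ∃ b'' ≤ b', b'' ≠ ⊥ ∧ ∃ y ∈ C, ∀ U : UF B, b'' ∈ U → MU.mk U a = MU.mk U y) :
    ∃ b' ≤ b, b' ≠ ⊥ ∧ ∃ c : Fin k → BSet B, (∀ i, c i ∈ C) ∧
      ∀ U : UF B, b' ∈ U → MU.mk U t = MU.mk U (sqn k c) := by
  have key : ∀ j ≤ k, ∃ b' ≤ b, b' ≠ ⊥ ∧ ∃ c : ℕ → BSet B, (∀ i < j, c i ∈ C) ∧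
      ∀ U : UF B, b' ∈ U → ∀ i < j, App (MU.E U) (MU.mk U t) (ck U (i : ℕ)) (MU.mk U (c i)) := by
    intro j
    induction j with
    | zero =>
      intro _
      exact ⟨b, le_rfl, hb, fun _ => t, fun i hi => absurd hi (Nat.not_lt_zero i),
        fun U _ i hi => absurd hi (Nat.not_lt_zero i)⟩
    | succ j ih =>
      intro hj
      obtain ⟨b1, hb1, hne1, c, hc, hc'⟩ := ih (Nat.le_of_succ_le hj)
      obtain ⟨a, ha⟩ := frc_ex (B := B) (P := fun _ E w => App E (w 1) (w 2) (w 0)) (fo_app 1 2 0)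
        (cns t (cns (chk B ((j : ℕ) : Ordinal.{0})) fun _ => t)) b1 (by
          intro U hU
          obtain ⟨y, hy, _⟩ := (ht U (U.mem_of_le hU hb1)).2 (ck U (j : ℕ))
            ((mem_ck_nat U k _).mpr ⟨j, hj, rfl⟩)
          exact ⟨y, hy⟩)
      have ha1 : ∀ U : UF B, b1 ∈ U → App (MU.E U) (MU.mk U t) (ck U (j : ℕ)) (MU.mk U a) := ha
      have ha2 : ∀ U : UF B, b1 ∈ U → S U (MU.mk U a) := by
        intro U hU
        obtain ⟨p, hp, hpt⟩ := ha1 U hU
        obtain ⟨x, y, _, hS', hp'⟩ := (ht U (U.mem_of_le hU hb1)).1 p hpt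
        rw [(isOPair_inj hp hp').2]
        exact hS'
      obtain ⟨b2, hb2, hne2, y, hy, hay⟩ := hS b1 hb1 hne1 a ha2
      refine ⟨b2, hb2.trans hb1, hne2, Function.update c j y, fun i hi => ?_, fun U hU i hi => ?_⟩
      · rcases (Nat.lt_succ_iff.mp hi).lt_or_eq with h | rfl
        · rw [Function.update_of_ne h.ne]
          exact hc i h
        · rw [Function.update_self]
          exact hy
      · rcases (Nat.lt_succ_iff.mp hi).lt_or_eq with h | rfl
        · rw [Function.update_of_ne h.ne]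
          exact hc' U (U.mem_of_le hU hb2) i h
        · rw [Function.update_self, ← hay U hU]
          exact ha1 U (U.mem_of_le hU hb2)
  obtain ⟨b', hb', hne, c, hc, hc'⟩ := key k le_rfl
  refine ⟨b', hb', hne, fun i => c i, fun i => hc i i.2, fun U hU => ?_⟩
  have htU := ht U (U.mem_of_le hU hb')
  apply MU.ext_E U
  intro z
  rw [mem_sqn]
  constructor
  · intro hz
    obtain ⟨x, y, hx, _, hp⟩ := htU.1 z hz
    obtain ⟨i, hi, rfl⟩ := (mem_ck_nat U k x).mp hx
    refine ⟨⟨i, hi⟩, ?_⟩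
    obtain ⟨y0, _, hy0⟩ := htU.2 _ hx
    have h1 : y = MU.mk U (c i) := (hy0 y ⟨z, hp, hz⟩).trans (hy0 _ (hc' U hU i hi)).symm
    rw [h1] at hp
    exact isOPair_unique (MU.ext_E U) hp (isOPair_opr U _ _)
  · rintro ⟨i, rfl⟩
    obtain ⟨p, hp, hpt⟩ := hc' U hU i i.2
    rwa [isOPair_unique (MU.ext_E U) hp (isOPair_opr U _ _)] at hpt

/-! ## Hereditarily finite names -/

/-- codes of some hereditarily finite sets -/
inductive Cd : Type
  | nat (n : ℕ)
  | pr (a b : Cd)
  | sq (k : ℕ) (f : Fin k → Cd)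

/-- the name of a code -/
noncomputable def cdn (B : Type) [CompleteBooleanAlgebra B] : Cd → BSet B
  | .nat n => chk B (n : Ordinal.{0})
  | .pr a b => opr (cdn B a) (cdn B b)
  | .sq k f => sqn k fun i => cdn B (f i)

/-- the set of all coded sets -/
noncomputable def HF (B : Type) [CompleteBooleanAlgebra B] : BSet B :=
  BSet.mk Cd (cdn B) (fun _ => ⊤)

theorem inv_cdn (a : Cd) : Inv Γ (cdn B a) := by
  induction a with
  | nat n => exact inv_chk _
  | pr a b iha ihb => exact inv_opr iha ihb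
  | sq k f ih => exact inv_sqn ih

theorem cdn_mem (U : UF B) (a : Cd) : MU.E U (MU.mk U (cdn B a)) (MU.mk U (HF B)) := by
  rw [MU.E_mk]
  exact U.mem_of_le U.top_mem (vl_le_bmem (HF B) a)

theorem mem_HF_iff (x : BSet B) : bmem x (HF B) = ⨆ a, beq x (cdn B a) := by
  rw [HF, bmem_mk]
  simp only [top_inf_eq]

theorem hf_nat (U : UF B) {m : MU U} (hm : IsNat (MU.E U) m) : MU.E U m (MU.mk U (HF B)) := by
  refine ball_chk (B := B) (P := fun _ E w => E (w 0) (w 1)) (fo_mem 0 1) (fun _ => HF B) ω ?_ U m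
    (mem_omega_of_isNat U hm)
  intro V β hβ
  obtain ⟨n, rfl⟩ := lt_omega0.mp hβ
  exact cdn_mem V (.nat n)

theorem hf_pair (U : UF B) {x y p : MU U} (hx : MU.E U x (MU.mk U (HF B)))
    (hy : MU.E U y (MU.mk U (HF B))) (hp : IsOPair (MU.E U) p x y) :
    MU.E U p (MU.mk U (HF B)) := by
  have h1 := ball_nm (B := B) (P := fun _ E w => ∀ y p, E y (w 1) → IsOPair E p (w 0) y → E p (w 1))
    (fo_all (fo_all (fo_imp (fo_mem 1 3) (fo_imp (fo_opair 0 2 1) (fo_mem 0 3)))))
    (fun _ => HF B) (cdn B) ?_ U x hx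
  · exact h1 y p hy hp
  · intro V a y p hy hp
    have h2 := ball_nm (B := B) (P := fun _ E w => ∀ p, IsOPair E p (w 1) (w 0) → E p (w 2))
      (fo_all (fo_imp (fo_opair 0 2 1) (fo_mem 0 3)))
      (cns (cdn B a) fun _ => HF B) (cdn B) ?_ V y hy
    · exact h2 p hp
    · intro W c p hp
      have h3 : p = MU.mk W (cdn B (.pr a c)) :=
        isOPair_unique (MU.ext_E W) hp (isOPair_opr W (cdn B a) (cdn B c))
      rw [h3]
      exact cdn_mem W _

theorem hf_seq (U : UF B) {n t : MU U} (hn : IsNat (MU.E U) n)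
    (ht : IsFn (MU.E U) t (fun i => MU.E U i n) (fun _ a => MU.E U a (MU.mk U (HF B)))) :
    MU.E U t (MU.mk U (HF B)) := by
  have hfo : FO.{1} (fun M E w => ∀ t, IsFn E t (fun i => E i (w 0)) (fun _ a => E a (w 1)) →
      E t (w 1)) := by
    unfold IsFn
    repeat' first
      | exact fo_mem _ _
      | exact fo_eq _ _
      | exact fo_opair _ _ _
      | exact fo_app _ _ _
      | refine fo_and ?_ ?_
      | refine fo_imp ?_ ?_
      | refine fo_all ?_
      | refine fo_ex ?_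
  have h1 := ball_chk (B := B) hfo (fun _ => HF B) ω ?_ U n (mem_omega_of_isNat U hn)
  · exact h1 t ht
  · intro V β hβ t ht
    obtain ⟨k, rfl⟩ := lt_omega0.mp hβ
    change IsFn (MU.E V) t (fun i => MU.E V i (ck V k)) (fun _ a => MU.E V a (MU.mk V (HF B))) at ht
    change MU.E V t (MU.mk V (HF B))
    by_contra hcon
    obtain ⟨t, rfl⟩ := MU.mk_surj V t
    have hfo2 : FO.{1} (fun M E w => IsFn E (w 0) (fun i => E i (w 1)) (fun _ a => E a (w 2)) ∧
        ¬ E (w 0) (w 2)) := by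
      unfold IsFn
      repeat' first
        | exact fo_mem _ _
        | exact fo_eq _ _
        | exact fo_opair _ _ _
        | exact fo_app _ _ _
        | refine fo_not ?_
        | refine fo_and ?_ ?_
        | refine fo_imp ?_ ?_
        | refine fo_all ?_
        | refine fo_ex ?_
    obtain ⟨g, -, hg⟩ := fo_lift_one (B := B) hfo2
      (cns (chk B ((k : ℕ) : Ordinal.{0})) fun _ => HF B)
    have hgV : g t ∈ V := (hg V t).mpr ⟨ht, hcon⟩
    obtain ⟨b', hb', hne, c, hc, hc'⟩ := seq_loc (C := Set.range (cdn B)) k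
      (V.ne_bot_of_mem hgV) (t := t) (S := fun U a => MU.E U a (MU.mk U (HF B)))
      (fun U hU => ((hg U t).mp hU).1) (by
        intro b' _ hne a ha
        have h2 : b' ≤ ⨆ d, beq a (cdn B d) := by
          rw [← mem_HF_iff]
          exact UF.le_of_forall fun U hU => ha U hU
        obtain ⟨b'', h3, h4, y, h5, h6⟩ := loc_of_le_iSup (C := Set.range (cdn B))
          (fun d => ⟨d, rfl⟩) h2 b' le_rfl hne
        exact ⟨b'', h3, h4, y, h5, h6⟩)
    choose d hd using hc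
    obtain ⟨W, hW⟩ := UF.exists_mem hne
    have h7 := ((hg W t).mp (W.mem_of_le hW hb')).2
    apply h7
    change MU.E W (MU.mk W t) (MU.mk W (HF B))
    rw [hc' W hW]
    have h8 : sqn k c = cdn B (.sq k d) := by
      change sqn k c = sqn k fun i => cdn B (d i)
      congr 1
      funext i
      exact (hd i).symm
    rw [h8]
    exact cdn_mem W _

end Pool.Agent.H86.CM
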